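import Pool.Agent.Lib.MP_c8786f_co.W5.X6

/-!
Local form of the reducible set theorem: routing of a source that is only locally thin.
-/

namespace Pool.Agent.Lib.MP_c8786f_co.W5

open Finset

set_option linter.unusedSectionVars false

theorem routeL (L1 A' : ℕ) (θ η ξ : ℝ) (hη : 0 < η) (hξ : 0 < ξ) (hθ : 0 ≤ θ)
    (hθ1 : θ * (A' + 2 * ((4 * A' + 1) * L1)) ≤ ξ / 2) (hθ2 : θ * ((4 * A' + 1) * L1) ≤ η)
    (V E T X : Type) [Fintype V] [DecidableEq V] [Fintype E] [DecidableEq E] [Fintype T]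
    [DecidableEq T] [Fintype X]
    (s t : E → V) (β : T → X → V → ℝ) (Λ : T → Finset V) (own : V → T) (F : T → Finset E)
    (α l0 l1 : ℝ) (G : Geo s t β Λ own F α l0 l1 L1 0)
    (m0 : X → ℝ) (hm0 : ∀ x, 0 ≤ m0 x) (hm1 : ∑ x, m0 x = 1) (B : Finset T)
    (hB : ∀ Y : Finset V, (∀ v ∈ Y, own v ∉ B) → Y.card ≤ A' * cut s t Y)
    (σ : V → ℝ) (hσ : ∀ Y : Finset V, ∑ v ∈ Y, |σ v| ≤ ξ / 2 * cut s t Y + θ * Y.card) :
    ∃ (z : E → ℝ) (y : T → ℝ), (∀ e, |z e| ≤ ξ + 2 * η) ∧ (∀ τ, |y τ| ≤ η) ∧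
      (∀ τ, τ ∉ B → y τ = 0) ∧ ∀ v, bd s t z v = ∑ τ, y τ * mu β m0 τ v - σ v := by
  classical
  obtain ⟨c, ψ, hc, hψ1, hψ2⟩ := rt_ports G m0 hm0 hm1
  have key : ∀ Y : Finset V, ∑ v ∈ Y, |σ v| ≤
      ξ * cut s t Y + η * (B.filter fun τ => c τ ∈ Y).card := by
    intro Y
    set Y2 := Y.filter fun v => own v ∈ B with hY2
    set Y1 := Y.filter fun v => own v ∉ B with hY1
    set C : Finset E := univ.filter fun e => ¬(s e ∈ Y ↔ t e ∈ Y) with hC
    set T2 : Finset T := C.biUnion fun e => univ.filter fun τ => e ∈ F τ with hT2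
    have h3 : T2.card ≤ cut s t Y * 2 :=
      card_biUnion_le_card_mul C (fun e => univ.filter fun τ => e ∈ F τ) 2 fun e _ => G.twice e
    have h4 : Y2 ⊆ (T2 ∪ B.filter fun τ => c τ ∈ Y).biUnion
        fun τ => univ.filter fun v => own v = τ := by
      intro v hv
      obtain ⟨hv1, hv2⟩ := mem_filter.mp hv
      simp only [mem_biUnion, mem_filter, mem_univ, true_and, exists_eq_right', mem_union]
      by_cases h : own v ∈ T2
      · exact Or.inl h
      · refine Or.inr ⟨hv2, sp_inside G Y hv1 (fun e he => ?_) (hc _)⟩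
        by_contra hn
        exact h (mem_biUnion.2 ⟨e, by simp only [hC, mem_filter, mem_univ, true_and]; exact hn,
          by simpa using he⟩)
    have h5 : Y2.card ≤ L1 * (2 * cut s t Y + (B.filter fun τ => c τ ∈ Y).card) := by
      refine (card_le_card h4).trans ((card_biUnion_le_card_mul _ _ _ fun τ _ => G.cell τ).trans ?_)
      rw [mul_comm]
      exact Nat.mul_le_mul_left _ ((card_union_le _ _).trans (by omega))
    have h6 : cut s t Y1 ≤ cut s t Y + Y2.card * 4 := by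
      have : (univ.filter fun e => ¬(s e ∈ Y1 ↔ t e ∈ Y1)) ⊆ C ∪ Y2.biUnion
          fun v => (univ.filter fun e => s e = v) ∪ univ.filter fun e => t e = v := by
        intro e he
        simp only [hY1, hY2, hC, mem_filter, mem_univ, true_and, mem_union, mem_biUnion] at he ⊢
        by_cases a1 : s e ∈ Y ∧ own (s e) ∈ B
        · exact Or.inr ⟨_, a1, Or.inl rfl⟩
        by_cases a2 : t e ∈ Y ∧ own (t e) ∈ B
        · exact Or.inr ⟨_, a2, Or.inr rfl⟩
        exact Or.inl (by tauto)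
      exact (card_le_card this).trans ((card_union_le _ _).trans (Nat.add_le_add_left
        (card_biUnion_le_card_mul _ _ _ fun v _ => (card_union_le _ _).trans (G.deg v)) _))
    have h7 := hB Y1 fun v hv => (mem_filter.mp hv).2
    have h8 : Y2.card + Y1.card = Y.card := card_filter_add_card_filter_not _
    have h9 : A' * cut s t Y1 ≤ A' * (cut s t Y + Y2.card * 4) := Nat.mul_le_mul_left _ h6
    have h10 : Y.card ≤ (A' + 2 * ((4 * A' + 1) * L1)) * cut s t Y +
        (4 * A' + 1) * L1 * (B.filter fun τ => c τ ∈ Y).card := by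
      have := Nat.mul_le_mul_left (4 * A' + 1) h5
      nlinarith
    have h11 : (Y.card : ℝ) ≤ (A' + 2 * ((4 * A' + 1) * L1)) * cut s t Y +
        (4 * A' + 1) * L1 * (B.filter fun τ => c τ ∈ Y).card := by exact_mod_cast h10
    have h12 := mul_le_mul_of_nonneg_left h11 hθ
    have h13 := mul_le_mul_of_nonneg_right hθ1 (Nat.cast_nonneg (α := ℝ) (cut s t Y))
    have h14 := mul_le_mul_of_nonneg_right hθ2
      (Nat.cast_nonneg (α := ℝ) (B.filter fun τ => c τ ∈ Y).card)
    have h15 := hσ Y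
    nlinarith
  have hcut : ∀ Y : Finset V, (∑ e, if (s e ∈ Y ↔ t e ∈ Y) then 0 else ξ) = ξ * cut s t Y := by
    intro Y
    rw [cut, card_filter]
    push_cast
    rw [mul_sum]
    exact sum_congr rfl fun e _ => by split_ifs <;> simp
  obtain ⟨x, hx1, hx2⟩ := rt_gale (V := Option V) (E := E ⊕ T)
    (Sum.elim (fun e => some (s e)) fun _ => none) (Sum.elim (fun e => some (t e)) fun τ => some (c τ))
    (Sum.elim (fun _ => ξ) fun τ => if τ ∈ B then η else 0)
    (fun e => by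
      rcases e with e | τ
      · exact hξ.le
      · simp only [Sum.elim_inr]; split_ifs <;> linarith)
    (fun v => v.elim (∑ v, σ v) fun v => -σ v) (by simp [Fintype.sum_option]) (fun Y => by
      set Y0 : Finset V := univ.filter fun v => some v ∈ Y with hY0
      have e1 : ∑ v ∈ Y, (v.elim (∑ v, σ v) fun v => -σ v) =
          (if none ∈ Y then ∑ v, σ v else 0) - ∑ v ∈ Y0, σ v := by
        rw [← univ_inter Y, ← filter_mem_eq_inter, sum_filter, Fintype.sum_option, hY0, sum_filter,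
          sub_eq_add_neg, ← sum_neg_distrib]
        simp only [filter_mem_eq_inter, univ_inter, Option.elim_none, Option.elim_some]
        congr 1
        exact sum_congr rfl fun v _ => by split_ifs <;> simp
      have e2 := hcut Y0
      simp only [hY0, mem_filter, mem_univ, true_and] at e2
      rw [e1, Fintype.sum_sum_type]
      simp only [Sum.elim_inl, Sum.elim_inr]
      rw [e2]
      by_cases h : none ∈ Y
      · have k := key Y0ᶜ
        rw [cut_compl] at k
        have k1 : ∑ v ∈ Y0ᶜ, σ v ≤ ∑ v ∈ Y0ᶜ, |σ v| := sum_le_sum fun v _ => le_abs_self _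
        have k2 := sum_compl_add_sum Y0 σ
        have k3 : (∑ τ, if (none ∈ Y ↔ some (c τ) ∈ Y) then 0 else if τ ∈ B then η else 0) =
            η * (B.filter fun τ => c τ ∈ Y0ᶜ).card := by
          rw [card_filter, ← sum_subset (subset_univ B) fun τ _ hτ => by simp [hτ]]
          push_cast
          rw [mul_sum]
          exact sum_congr rfl fun τ hτ => by by_cases a : some (c τ) ∈ Y <;> simp [hY0, h, hτ, a]
        rw [k3, if_pos h]
        linarith
      · have k := key Y0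
        have k1 : -∑ v ∈ Y0, σ v ≤ ∑ v ∈ Y0, |σ v| := by
          rw [← sum_neg_distrib]; exact sum_le_sum fun v _ => neg_le_abs _
        have k3 : (∑ τ, if (none ∈ Y ↔ some (c τ) ∈ Y) then 0 else if τ ∈ B then η else 0) =
            η * (B.filter fun τ => c τ ∈ Y0).card := by
          rw [card_filter, ← sum_subset (subset_univ B) fun τ _ hτ => by simp [hτ]]
          push_cast
          rw [mul_sum]
          exact sum_congr rfl fun τ hτ => by by_cases a : some (c τ) ∈ Y <;> simp [hY0, h, hτ, a]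
        rw [k3, if_neg h]
        linarith)
  have hy : ∀ τ, |x (.inr τ)| ≤ η := fun τ => (hx1 _).trans (by
    simp only [Sum.elim_inr]; split_ifs <;> linarith)
  refine ⟨fun e => x (.inl e) - ∑ τ, x (.inr τ) * ψ τ e, fun τ => x (.inr τ), fun e => ?_, hy,
    fun τ h => by simpa [h] using hx1 (.inr τ), fun v => ?_⟩
  · refine (abs_sub _ _).trans (add_le_add (hx1 (.inl e)) ((abs_sum_le_sum_abs _ _).trans ?_))
    have h1 : ∑ τ, |x (.inr τ) * ψ τ e| ≤ ∑ τ, if e ∈ F τ then η else 0 :=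
      sum_le_sum fun τ _ => by
        rw [abs_mul]
        refine (mul_le_mul (hy τ) (hψ1 τ e) (abs_nonneg _) hη.le).trans ?_
        split_ifs <;> simp
    rw [← sum_filter, sum_const, nsmul_eq_mul] at h1
    have h2 : ((univ.filter fun τ => e ∈ F τ).card : ℝ) ≤ 2 := by exact_mod_cast G.twice e
    exact h1.trans (mul_le_mul_of_nonneg_right h2 hη.le)
  · have h1 := hx2 (some v)
    rw [fix_bd, Fintype.sum_sum_type] at h1
    simp only [Sum.elim_inl, Sum.elim_inr, Option.some.injEq, reduceCtorEq, if_false, zero_sub,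
      Option.elim_some, sum_neg_distrib] at h1
    rw [← fix_bd s t fun e => x (.inl e)] at h1
    have h3 : bd s t (fun e => x (.inl e) - ∑ τ, x (.inr τ) * ψ τ e) v =
        bd s t (fun e => x (.inl e)) v - ∑ τ, x (.inr τ) * bd s t (ψ τ) v := by
      simp only [bd, mul_sub, mul_sum, sum_sub_distrib]
      rw [sum_comm (s := univ.filter fun e => s e = v), sum_comm (s := univ.filter fun e => t e = v)]
      ring
    rw [h3]
    simp only [hψ2, mul_sub, sum_sub_distrib, mul_ite, mul_one, mul_zero]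
    linarith

theorem fix3L (L1 A' k n : ℕ) (ξ : ℝ) (hk : 1 ≤ k) (hn : 1 ≤ n) (hξ : 0 < ξ) : ∃ H : ℕ, 1 ≤ H ∧
    (∀ Z : ℝ, 2 ^ 20 ≤ Z → 1 ≤ ξ * Z → L1 ≤ Z → A' ≤ Z → k ≤ Z → n ≤ Z → (H : ℝ) ≤ Z ^ 6) ∧
    ∀ (K0 : ℕ) (V E T X : Type) [Fintype V] [DecidableEq V] [Fintype E] [DecidableEq E] [Fintype T]
      [DecidableEq T] [Fintype X]
      (s t : E → V) (β : T → X → V → ℝ) (Λ : T → Finset V) (own : V → T) (F : T → Finset E)
      (α l0 l1 : ℝ) (wt : E → ℕ), Geo s t β Λ own F α l0 l1 L1 0 →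
      (∀ Y : Finset V, Y.card ≤ K0 + 1 → Y.card ≤ wcut s t wt Y) →
      (∀ Y : Finset V, K0 < Y.card → K0 < Yᶜ.card → 2 * k ≤ wcut s t wt Y) →
      ∀ m0 : X → ℝ, (∀ x, 0 ≤ m0 x) → ∑ x, m0 x = 1 →
      ∀ σ : V → ℝ, (∀ Y : Finset V, ∑ v ∈ Y, |σ v| ≤ ξ / 2 * cut s t Y + 1 / H * Y.card) →
      Fix3 s t β m0 own σ {z | ∀ e, |z e| ≤ wt e / k + 2 / (n * k) + ξ} ((4 * n + 2) * k) A' := by
  have hF := fix
  have k0 : (1 : ℝ) ≤ k := by exact_mod_cast hk
  have n0 : (1 : ℝ) ≤ n := by exact_mod_cast hn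
  obtain ⟨a, ha⟩ : ∃ a : ℕ, a = A' + 2 * ((4 * A' + 1) * L1) := ⟨_, rfl⟩
  obtain ⟨u, hu⟩ : ∃ u : ℕ, u = ⌈2 / ξ⌉₊ + 2 * (n * k) := ⟨_, rfl⟩
  have u1 : 2 / ξ ≤ (u : ℝ) := (Nat.le_ceil _).trans (by rw [hu]; push_cast; nlinarith)
  have u2 : 2 * ((n : ℝ) * k) ≤ u := by
    rw [hu]; push_cast; linarith [Nat.cast_nonneg (α := ℝ) ⌈2 / ξ⌉₊]
  have u0 : (0 : ℝ) < u := lt_of_lt_of_le (by positivity) u2
  have a0 : (0 : ℝ) ≤ a := Nat.cast_nonneg _
  have aH : 1 / ((a * u + 1 : ℕ) : ℝ) * a ≤ 1 / u := by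
    push_cast
    rw [div_mul_eq_mul_div, div_le_div_iff₀ (by positivity) u0]
    linarith
  have ha' : (a : ℝ) = A' + 2 * ((4 * A' + 1) * L1) := by rw [ha]; push_cast; ring
  refine ⟨a * u + 1, by omega, fun Z z1 z3 z4 z5 z6 z7 => ?_, ?_⟩
  · have z0 : 1 ≤ Z := by linarith
    have h1 := x_inv hξ z3
    have h2 := Nat.ceil_lt_add_one (show 0 ≤ 2 / ξ by positivity)
    have h3 : (n : ℝ) * k ≤ Z * Z := by gcongr
    have h4 : (u : ℝ) ≤ 5 * (Z * Z) := by
      rw [hu]; push_cast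
      rw [div_eq_mul_inv] at h2 ⊢
      nlinarith
    have h5 : (4 * (A' : ℝ) + 1) * L1 ≤ (5 * Z) * Z := by
      gcongr
      linarith
    have h6 : (a : ℝ) ≤ 11 * (Z * Z) := by rw [ha']; nlinarith
    have h7 : (a : ℝ) * u ≤ 11 * (Z * Z) * (5 * (Z * Z)) := by gcongr
    have h8 : 1 ≤ Z ^ 4 := one_le_pow₀ z0
    have h9 : 56 * Z ^ 4 ≤ Z ^ 2 * Z ^ 4 := by gcongr; nlinarith
    push_cast
    nlinarith
  intro K0 V E T X _ _ _ _ _ _ _ s t β Λ own F α l0 l1 wt hG h1 h2 m0 hm0 hm1 σ hσ cl B hJ hB r hr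
  obtain ⟨z1, y1, hz1, hy1, hy1B, hbd1⟩ := routeL L1 A' (1 / ((a * u + 1 : ℕ) : ℝ))
    (1 / (2 * (n * k))) ξ (by positivity) hξ (by positivity)
    (by
      rw [← ha']
      refine aH.trans ?_
      rw [div_le_iff₀ hξ] at u1
      rw [div_le_div_iff₀ u0 two_pos]
      linarith)
    (by
      refine le_trans ?_ (aH.trans (one_div_le_one_div_of_le (by positivity) u2))
      rw [ha']
      gcongr
      have : (0 : ℝ) ≤ (4 * A' + 1) * L1 := by positivity
      linarith [Nat.cast_nonneg (α := ℝ) A'])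
    V E T X s t β Λ own F α l0 l1 hG m0 hm0 hm1 B hB σ hσ
  have hfix := hF V E T X s t β Λ own F α l0 l1 L1 (K0 + 1) (2 * k) n (fun e => 2 * wt e) hG
    (by omega) hn
    (fun Y hY => by
      rw [f3_wcut]; exact Nat.mul_le_mul_left _ (h1 Y hY))
    (fun Y hY hY' => by rw [f3_wcut]; exact Nat.mul_le_mul_left _ (h2 Y hY hY')) m0 hm0 hm1
  have hmu : ∀ τ, ∑ v, mu β m0 τ v = 1 := fun τ => by
    simp only [mu]
    rw [sum_comm]
    simp only [← mul_sum, hG.total, mul_one, hm1]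
  have hs : ∑ τ ∈ B, y1 τ = ∑ v, σ v := by
    have h3 := f3_sum_bd s t z1
    simp only [hbd1, sum_sub_distrib] at h3
    rw [sum_comm] at h3
    simp only [← mul_sum, hmu, mul_one] at h3
    rw [sum_subset (subset_univ B) fun τ _ hτ => hy1B τ hτ]
    linarith
  obtain ⟨j, hj⟩ := hr
  obtain ⟨z0, hz0, y0, hy0, hy0B, hbd0, hpar⟩ := hfix cl B
    (fun τ hτ => le_trans (le_of_eq (by ring)) (hJ τ hτ))
    (fun A => r A - ∑ τ ∈ B with cl τ = A, y1 τ)
    ⟨j, by rw [sum_sub_distrib, sum_fiberwise_of_maps_to fun τ hτ => mem_image_of_mem cl hτ, hs, hj]⟩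
  refine ⟨z0 + z1, fun e => ?_, y0 + y1, fun τ => ?_, fun τ hτ => ?_, fun v => ?_, fun A hA => ?_⟩
  · have h3 := hz0 e
    have h4 := hz1 e
    have e1 : ((2 * wt e : ℕ) : ℝ) / (2 * k : ℕ) + 2 / (n * (2 * k : ℕ)) + (ξ + 2 * (1 / (2 * (n * k))))
        = wt e / k + 2 / (n * k) + ξ := by
      push_cast; field_simp; ring
    exact (abs_add_le _ _).trans ((add_le_add h3 h4).trans e1.le)
  · have h3 : 1 / (2 * ((n : ℝ) * k)) ≤ 1 := by
      rw [div_le_one (by positivity)]; nlinarith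
    exact (abs_add_le _ _).trans (by linarith [hy0 τ, hy1 τ])
  · simp [hy0B τ hτ, hy1B τ hτ]
  · rw [f3_bd_add, hbd0, hbd1]
    simp only [Pi.add_apply, add_mul, sum_add_distrib]
    ring
  · obtain ⟨i, hi⟩ := hpar A hA
    refine ⟨i, ?_⟩
    simp only [Pi.add_apply, sum_add_distrib]
    linarith

/-- unit masses near far apart roots are locally thin -/
theorem massL {V E ι : Type} [Fintype V] [DecidableEq V] [Fintype E] [DecidableEq ι]
    (s t : E → V) (U : Finset ι) (ball : ι → ℕ → Finset V) (R H : ℕ) (α : ℝ) (hH : 1 ≤ H)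
    (hα : 0 ≤ α) (mono : ∀ u j, ball u j ⊆ ball u (j + 1))
    (st : ∀ u j e, s e ∈ ball u j ∨ t e ∈ ball u j → s e ∈ ball u (j + 1) ∧ t e ∈ ball u (j + 1))
    (disj : ∀ u ∈ U, ∀ u' ∈ U, u ≠ u' → Disjoint (ball u (R + H)) (ball u' (R + H)))
    (μ : ι → V → ℝ) (μ0 : ∀ u v, 0 ≤ μ u v) (μ1 : ∀ u ∈ U, ∀ v, μ u v ≤ α)
    (μ2 : ∀ u, ∑ v, μ u v ≤ 1) (μ3 : ∀ u ∈ U, ∀ v, v ∉ ball u R → μ u v = 0)
    (iso : ∀ Y : Finset V, Y.card ≤ H → Y.card ≤ cut s t Y) (Y : Finset V) :
    ∑ u ∈ U, ∑ v ∈ Y, μ u v ≤ α * cut s t Y + 1 / H * Y.card := by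
  classical
  have hH0 : (0 : ℝ) < H := by exact_mod_cast hH
  have mono' : ∀ u j j', j ≤ j' → ball u j ⊆ ball u j' := fun u j j' h => by
    induction h with
    | refl => exact subset_rfl
    | step _ ih => exact ih.trans (mono _ _)
  set C : Finset E := univ.filter fun e => ¬(s e ∈ Y ↔ t e ∈ Y) with hC
  set en : E → V := fun e => if s e ∈ Y then s e else t e with hen
  have one : ∀ u ∈ U, ∑ v ∈ Y, μ u v ≤ α * (C.filter fun e => en e ∈ ball u (R + H)).card +
      1 / H * (Y.filter fun v => v ∈ ball u (R + H)).card := by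
    intro u hu
    have p1 : 0 ≤ α * (C.filter fun e => en e ∈ ball u (R + H)).card := by positivity
    have p2 : 0 ≤ 1 / (H : ℝ) * (Y.filter fun v => v ∈ ball u (R + H)).card := by positivity
    by_cases h1 : H ≤ (Y.filter fun v => v ∈ ball u (R + H)).card
    · have h2 : ∑ v ∈ Y, μ u v ≤ 1 :=
        (sum_le_sum_of_subset_of_nonneg (subset_univ Y) fun v _ _ => μ0 u v).trans (μ2 u)
      have h3 : (H : ℝ) ≤ (Y.filter fun v => v ∈ ball u (R + H)).card := by exact_mod_cast h1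
      have h4 : 1 ≤ 1 / (H : ℝ) * (Y.filter fun v => v ∈ ball u (R + H)).card := by
        rw [div_mul_eq_mul_div, le_div_iff₀ hH0]; linarith
      linarith
    have sub : ∀ j j', j ≤ j' → (Y.filter fun v => v ∈ ball u j) ⊆ Y.filter fun v => v ∈ ball u j' :=
      fun j j' h v hv => mem_filter.2 ⟨(mem_filter.1 hv).1, mono' u j j' h (mem_filter.1 hv).2⟩
    obtain ⟨j, hj, hj'⟩ : ∃ j < H, (Y.filter fun v => v ∈ ball u (R + j + 1)).card ≤
        (Y.filter fun v => v ∈ ball u (R + j)).card := by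
      by_contra hn
      push Not at hn
      have : ∀ j ≤ H, j ≤ (Y.filter fun v => v ∈ ball u (R + j)).card := fun j => by
        induction j with
        | zero => exact fun _ => Nat.zero_le _
        | succ j ih =>
          intro h
          have a1 := ih (by omega)
          have a2 := hn j (by omega)
          exact Nat.succ_le_of_lt (lt_of_le_of_lt a1 a2)
      exact h1 (this H le_rfl)
    have heq := eq_of_subset_of_card_le (sub (R + j) (R + j + 1) (by omega)) hj'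
    set Z := Y.filter fun v => v ∈ ball u (R + j) with hZ
    have z1 : Z.card ≤ H := (card_le_card (sub _ _ (by omega))).trans (not_le.1 h1).le
    have z2 : cut s t Z ≤ (C.filter fun e => en e ∈ ball u (R + H)).card := by
      refine card_le_card fun e he => ?_
      have he' := (mem_filter.1 he).2
      have cl : ∀ v ∈ Y, v ∈ ball u (R + j + 1) → v ∈ Z := fun v h2 h3 =>
        heq ▸ mem_filter.2 ⟨h2, h3⟩
      have zz : ∀ v ∈ Z, v ∈ Y ∧ v ∈ ball u (R + j) := fun v h => mem_filter.1 h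
      by_cases a1 : s e ∈ Z
      · have a2 : t e ∉ Z := fun h => he' ⟨fun _ => h, fun _ => a1⟩
        have a3 : t e ∉ Y := fun h => a2 (cl _ h (st u _ e (Or.inl (zz _ a1).2)).2)
        refine mem_filter.2 ⟨mem_filter.2 ⟨mem_univ _, fun h => a3 (h.1 (zz _ a1).1)⟩, ?_⟩
        simp only [hen, if_pos (zz _ a1).1]
        exact mono' u _ _ (by omega) (zz _ a1).2
      · have a2 : t e ∈ Z := by
          by_contra h
          exact he' ⟨fun h' => absurd h' a1, fun h' => absurd h' h⟩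
        have a3 : s e ∉ Y := fun h => a1 (cl _ h (st u _ e (Or.inr (zz _ a2).2)).1)
        refine mem_filter.2 ⟨mem_filter.2 ⟨mem_univ _, fun h => a3 (h.2 (zz _ a2).1)⟩, ?_⟩
        simp only [hen, if_neg a3]
        exact mono' u _ _ (by omega) (zz _ a2).2
    have z3 : ∑ v ∈ Y, μ u v = ∑ v ∈ Z, μ u v :=
      (sum_subset (filter_subset _ _) fun v h2 h3 => μ3 u hu v fun h4 =>
        h3 (mem_filter.2 ⟨h2, mono' u _ _ (by omega) h4⟩)).symm
    have z4 : ∑ v ∈ Z, μ u v ≤ Z.card • α := sum_le_card_nsmul _ _ _ fun v _ => μ1 u hu v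
    have z5 : (Z.card : ℝ) ≤ (C.filter fun e => en e ∈ ball u (R + H)).card := by
      exact_mod_cast (iso Z z1).trans z2
    rw [nsmul_eq_mul] at z4
    nlinarith
  have cnt : ∀ {κ : Type} [DecidableEq κ] (A : Finset κ) (f : κ → V),
      ∑ u ∈ U, ((A.filter fun x => f x ∈ ball u (R + H)).card : ℝ) ≤ A.card := by
    intro κ _ A f
    have := card_biUnion (s := U) (t := fun u => A.filter fun x => f x ∈ ball u (R + H))
      fun u hu u' hu' h => disjoint_filter.2 fun x _ a b =>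
        disjoint_left.1 (disj u hu u' hu' h) a b
    have h2 : (U.biUnion fun u => A.filter fun x => f x ∈ ball u (R + H)).card ≤ A.card :=
      card_le_card (biUnion_subset.2 fun u _ => filter_subset _ _)
    rw [this] at h2
    exact_mod_cast h2
  refine (sum_le_sum one).trans ?_
  rw [sum_add_distrib, ← mul_sum, ← mul_sum]
  have c1 := cnt C en
  have c2 := cnt Y id
  exact add_le_add (mul_le_mul_of_nonneg_left c1 hα)
    (mul_le_mul_of_nonneg_left c2 (by positivity))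

end Pool.Agent.Lib.MP_c8786f_co.W5
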