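import Pool.Agent.Lib.MP_c8786f_co.W5.Blob
import Pool.Agent.Lib.MP_c8786f_co.W5.Double

/-!
Local form of the reducible set theorem: blobs exist when the boundary is locally sparse.
-/

namespace Pool.Agent.Lib.MP_c8786f_co.W5

open Finset

set_option linter.unusedSectionVars false

variable {V : Type} [Fintype V] [DecidableEq V] {n : Equiv.Perm V} {m : V → V}

lemma lc_three (X Y : Finset V) : blobE n m X Y ≤ 3 * X.card := by
  have : (univ.filter fun q : V × Fin 3 => q.1 ∈ X ∧ step n m q.2 q.1 ∈ Y) ⊆ X ×ˢ univ :=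
    fun q hq => mem_product.2 ⟨(mem_filter.1 hq).2.1, mem_univ _⟩
  simpa [blobE, mul_comm] using card_le_card this

lemma lc_union (hm : ∀ v, m (m v) = v) {A C : Finset V} (h : Disjoint A C) :
    hcut n m (A ∪ C) + 2 * blobE n m A C = hcut n m A + hcut n m C := by
  have e1 := blob_split (n := n) (m := m) h
  have e2 := blob_split' (n := n) (m := m) h
  have e3 := blob_union (n := n) (m := m) h
  have e4 := blobE_comm (n := n) hm A C
  omega

lemma lc_le {A C : Finset V} (h : Disjoint A C) : blobE n m A C ≤ hcut n m A := by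
  rw [blob_split h]; omega

/-- a subtree extends to a closed subtree -/
lemma lc_ext (hm : ∀ v, m (m v) = v) {X T : Finset V} {M : ℕ}
    (hX : ∀ T ⊆ X, hcut n m T ≤ T.card + 2 → T.card ≤ M + 1 → T.card ≤ M) (h1 : T ⊆ X)
    (h2 : hcut n m T ≤ T.card + 2) (h3 : T.card ≤ M) : ∃ C, T ⊆ C ∧ C ⊆ X ∧
      hcut n m C ≤ C.card + 2 ∧ C.card ≤ M ∧ blobE n m C (X \ C) = 0 := by
  obtain ⟨C, hC, hmax⟩ := exists_max_image (X.powerset.filter fun C : Finset V => T ⊆ C ∧
    hcut n m C ≤ C.card + 2 ∧ C.card ≤ M) card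
    ⟨T, mem_filter.2 ⟨mem_powerset.2 h1, subset_rfl, h2, h3⟩⟩
  obtain ⟨c0, c1, c2, c3⟩ := mem_filter.1 hC
  rw [mem_powerset] at c0
  refine ⟨C, c1, c0, c2, c3, ?_⟩
  by_contra hne
  obtain ⟨⟨v, l⟩, hq⟩ := card_pos.1 (Nat.pos_of_ne_zero hne)
  obtain ⟨q1, q2⟩ : v ∈ C ∧ step n m l v ∈ X \ C := (mem_filter.1 hq).2
  obtain ⟨q3, q4⟩ := mem_sdiff.1 q2
  have hd : Disjoint C {step n m l v} := disjoint_singleton_right.2 q4
  have e1 := lc_union (n := n) hm hd
  have e2 := blob_single (n := n) (m := m) (step n m l v)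
  have e3 : 0 < blobE n m C {step n m l v} := card_pos.2 ⟨(v, l), by simp [q1]⟩
  have e4 := card_union_of_disjoint hd
  rw [card_singleton] at e4
  have e5 : C ∪ {step n m l v} ⊆ X := union_subset c0 (singleton_subset_iff.2 q3)
  have e6 := hX _ e5 (by omega) (by omega)
  have := hmax _ (mem_filter.2 ⟨mem_powerset.2 e5, c1.trans subset_union_left, by omega, e6⟩)
  omega

/-- sets all of whose subtrees are small are forests with many components -/
lemma lc_forest (hm : ∀ v, m (m v) = v) {B0 : Finset V} {K M : ℕ} (hM : 1 ≤ M) (hK : M ≤ K)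
    (hfor : ∀ Y ⊆ B0, Y.Nonempty → Y.card ≤ K → Y.card + 2 ≤ hcut n m Y) (Y : Finset V) :
    Y ⊆ B0 → (∀ T ⊆ Y, hcut n m T ≤ T.card + 2 → T.card ≤ M + 1 → T.card ≤ M) →
      (M + 2) * Y.card ≤ M * hcut n m Y := by
  induction Y using Finset.strongInduction with
  | H Y ih =>
  intro hY hT
  rcases Y.eq_empty_or_nonempty with rfl | ⟨v, hv⟩
  · simp
  obtain ⟨C, c1, c2, -, c4, c5⟩ := lc_ext hm hT (singleton_subset_iff.2 hv)
    (by simpa using blob_single (n := n) (m := m) v) (by simpa using hM)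
  have hne : C.Nonempty := ⟨v, c1 (mem_singleton_self v)⟩
  have h1 := hfor C (c2.trans hY) hne (by omega)
  have h2 := ih (Y \ C) (sdiff_ssubset c2 hne) (sdiff_subset.trans hY)
    fun T h => hT T (h.trans sdiff_subset)
  have h3 := lc_union (n := n) hm (disjoint_sdiff (s := C) (t := Y))
  rw [union_sdiff_of_subset c2, c5] at h3
  have h4 := card_sdiff_add_card_eq_card c2
  have h5 := Nat.mul_le_mul_left M h1
  rw [← h4, show hcut n m Y = hcut n m C + hcut n m (Y \ C) by omega]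
  nlinarith

/-- the first potential -/
def lcF (n : Equiv.Perm V) (m : V → V) (W : ℕ) (B0 X : Finset V) : ℤ :=
  2 * W * blobE n m X B0ᶜ - 2 * X.card - W * (hcut n m X - X.card)

lemma lcF_union (hm : ∀ v, m (m v) = v) (W : ℕ) (B0 : Finset V) {A C : Finset V}
    (h : Disjoint A C) :
    lcF n m W B0 (A ∪ C) = lcF n m W B0 A + lcF n m W B0 C + 2 * W * blobE n m A C := by
  have e1 : (hcut n m (A ∪ C) : ℤ) = hcut n m A + hcut n m C - 2 * blobE n m A C := by
    have := lc_union (n := n) hm h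
    omega
  unfold lcF
  rw [e1, blobE_left h, card_union_of_disjoint h]
  push_cast
  ring

/-- global cleaning -/
theorem cleanL (hm : ∀ v, m (m v) = v) (D N K : ℕ) (B0 : Finset V)
    (hK : D + 2 + (D + 2) * (N + 1) * (2 * D + 3) ≤ K)
    (hfor : ∀ Y ⊆ B0, Y.Nonempty → Y.card ≤ K → Y.card + 2 ≤ hcut n m Y)
    (hloc : ∀ Y ⊆ B0, Y.card ≤ K → hcut n m Y ≤ Y.card + 2 → blobE n m Y B0ᶜ ≤ N)
    (hcyc : ∃ Y ⊆ B0, Y.Nonempty ∧ hcut n m Y ≤ Y.card) :
    ∃ B ⊆ B0, B.Nonempty ∧ hcut n m B ≤ (3 * D + 7) * hcut n m B0 ∧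
      ∀ a l a' l' w, step n m l a ∉ B → step n m l' a' ∉ B → Ins n m B w a → w.length ≤ D →
        act n m w a = a' → a = a' ∧ l = l' := by
  classical
  obtain ⟨M0, hM0⟩ : ∃ M0, M0 = (D + 2) * (N + 1) := ⟨_, rfl⟩
  obtain ⟨M, hM⟩ : ∃ M, M = D + 2 + M0 * (2 * D + 3) := ⟨_, rfl⟩
  rw [← hM0, ← hM] at hK
  have m1 : 1 ≤ M0 := by rw [hM0]; nlinarith
  have m2 : M0 ≤ M := by rw [hM]; nlinarith
  obtain ⟨X, hX, hmax⟩ := exists_max_image (B0.powerset.filter fun X : Finset V =>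
    ∀ T ⊆ X, hcut n m T ≤ T.card + 2 → T.card ≤ M + 1 → T.card ≤ M) (lcF n m (D + 2) B0)
    ⟨∅, mem_filter.2 ⟨empty_mem_powerset _, fun T h _ _ => by simp [subset_empty.1 h]⟩⟩
  obtain ⟨x0, x1⟩ := mem_filter.1 hX
  rw [mem_powerset] at x0
  have x2 : ∀ T ⊆ X, hcut n m T ≤ T.card + 2 → T.card ≤ M0 + 1 → T.card ≤ M0 := by
    intro T h1 h2 h3
    obtain ⟨C, c1, c2, c3, c4, c5⟩ := lc_ext hm x1 h1 h2 (x1 T h1 h2 (by omega))
    refine (card_le_card c1).trans ?_
    rcases C.eq_empty_or_nonempty with rfl | hne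
    · simp
    have a1 := hmax (X \ C) (mem_filter.2 ⟨mem_powerset.2 (sdiff_subset.trans x0),
      fun T h => x1 T (h.trans sdiff_subset)⟩)
    have a2 := lcF_union (n := n) hm (D + 2) B0 (disjoint_sdiff (s := C) (t := X))
    rw [union_sdiff_of_subset c2, c5] at a2
    have a3 : 0 ≤ lcF n m (D + 2) B0 C := by push_cast at a2; linarith
    have a4 : (C.card : ℤ) + 2 ≤ hcut n m C := by
      exact_mod_cast hfor C (c2.trans x0) hne (by omega)
    have a5 : (blobE n m C B0ᶜ : ℤ) ≤ N := by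
      exact_mod_cast hloc C (c2.trans x0) (by omega) c3
    unfold lcF at a3
    have a6 : (C.card : ℤ) ≤ ((D + 2) * (N + 1) : ℕ) := by
      push_cast at a3 ⊢
      nlinarith [Int.natCast_nonneg D]
    rw [hM0]
    exact_mod_cast a6
  have x3 : ∀ Y ⊆ X, (M0 + 2) * Y.card ≤ M0 * hcut n m Y := fun Y h =>
    lc_forest hm m1 (m2.trans hK) hfor Y (h.trans x0) fun T h' => x2 T (h'.trans h)
  have hd : Disjoint (B0 \ X) X := sdiff_disjoint
  have hu : B0 \ X ∪ X = B0 := sdiff_union_of_subset x0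
  refine ⟨B0 \ X, sdiff_subset, ?_, ?_, fun a l a' l' w c1 c2 c3 c4 c5 => ?_⟩
  · obtain ⟨Y, y1, y2, y3⟩ := hcyc
    by_contra hn
    rw [not_nonempty_iff_eq_empty, sdiff_eq_empty_iff_subset] at hn
    have a1 := x3 Y (y1.trans hn)
    have a2 := Nat.mul_le_mul_left M0 y3
    have a3 := card_pos.2 y2
    nlinarith
  · have a1 := hmax ∅ (mem_filter.2 ⟨empty_mem_powerset _, fun T h _ _ => by
      simp [subset_empty.1 h]⟩)
    have a2 : X.card ≤ hcut n m X := by
      have := x3 X subset_rfl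
      by_contra h
      have := Nat.mul_le_mul_left M0 (not_le.1 h).le
      nlinarith
    have a3 : blobE n m X B0ᶜ ≤ hcut n m B0 := by
      have := blobE_left (n := n) (m := m) hd B0ᶜ
      rw [hu, ← blob_hcut] at this
      omega
    have a4 : X.card ≤ (D + 2) * hcut n m B0 := by
      have b1 : lcF n m (D + 2) B0 ∅ = 0 := by simp [lcF, blobE, hcut]
      have b2 : (X.card : ℤ) ≤ hcut n m X := by exact_mod_cast a2
      have b3 : (blobE n m X B0ᶜ : ℤ) ≤ hcut n m B0 := by exact_mod_cast a3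
      rw [b1] at a1
      unfold lcF at a1
      have : (X.card : ℤ) ≤ ((D + 2) * hcut n m B0 : ℕ) := by
        push_cast at a1 ⊢
        nlinarith [Int.natCast_nonneg D]
      exact_mod_cast this
    have a5 := lc_union (n := n) hm hd
    have a6 := blobE_comm (n := n) hm (B0 \ X) X
    have a7 := lc_le (n := n) (m := m) hd.symm
    have a8 := lc_three (n := n) (m := m) X (B0 \ X)
    rw [hu] at a5
    nlinarith
  · by_contra hne
    obtain ⟨P, p1, p2, p3, p4, p5⟩ := blob_walk hm _ a w c3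
    rw [c5] at p3
    have hXP : Disjoint X P := hd.symm.mono_right p1
    have hi : 2 ≤ blobE n m P X + blobE n m P B0ᶜ := by
      rw [← blobE_right P (disjoint_compl_right.mono_left x0)]
      have k : ∀ v, v ∉ B0 \ X → v ∈ X ∪ B0ᶜ := fun v h => by
        simp only [mem_sdiff, mem_union, mem_compl] at h ⊢
        tauto
      exact one_lt_card.2 ⟨(a, l), mem_filter.2 ⟨mem_univ _, p2, k _ c1⟩, (a', l'),
        mem_filter.2 ⟨mem_univ _, p3, k _ c2⟩, fun h => hne (Prod.ext_iff.1 h)⟩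
    have a1 := hmax (X ∪ P) (mem_filter.2 ⟨mem_powerset.2
      (union_subset x0 (p1.trans sdiff_subset)), fun T t1 t2 _ => by
        have b0 : Disjoint (T ∩ P) (T \ P) := disjoint_sdiff.mono_left inter_subset_right
        have b1 := lc_union (n := n) hm b0
        have b2 := lc_le (n := n) (m := m) b0
        have b3 := lc_three (n := n) (m := m) (T ∩ P) (T \ P)
        have b4 := card_le_card (inter_subset_right (s₁ := T) (s₂ := P))
        have b5 := card_sdiff_add_card_inter T P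
        rw [union_comm, sdiff_union_inter] at b1
        have b6 := x3 (T \ P) fun v hv =>
          (mem_union.1 (t1 (mem_sdiff.1 hv).1)).resolve_right (mem_sdiff.1 hv).2
        have b7 : hcut n m (T \ P) ≤ (T \ P).card + (4 * D + 6) := by omega
        have b8 := Nat.mul_le_mul_left M0 b7
        have b9 : (T \ P).card ≤ M0 * (2 * D + 3) := by nlinarith
        omega⟩)
    rw [lcF_union hm _ _ hXP, blobE_comm hm X P] at a1
    have a2 : (2 : ℤ) ≤ blobE n m P X + blobE n m P B0ᶜ := by exact_mod_cast hi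
    have a3 : (hcut n m P : ℤ) ≤ P.card + 2 := by exact_mod_cast p5
    have a4 : (P.card : ℤ) ≤ D + 1 := by exact_mod_cast p4.trans (by omega)
    unfold lcF at a1
    push_cast at a1
    nlinarith [Int.natCast_nonneg D]

lemma lc_split {A Y C : Finset V} (h : Disjoint Y C) (hC : C ⊆ A) :
    icut n m A Y = blobE n m Y (A \ (Y ∪ C)) + blobE n m Y C := by
  rw [blob_icut, ← blobE_right]
  · congr 1
    ext v
    have h1 : v ∈ Y → v ∉ C := fun hv => disjoint_left.1 h hv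
    have h2 := @hC v
    simp only [mem_union, mem_sdiff]
    tauto
  · rw [disjoint_left]
    intro v a b
    exact (mem_sdiff.1 a).2 (mem_union_right _ b)

lemma lc_split' {A Y C : Finset V} (h : Disjoint Y C) (hY : Y ⊆ A) :
    icut n m A C = blobE n m C (A \ (Y ∪ C)) + blobE n m C Y := by
  rw [union_comm]; exact lc_split h.symm hY

lemma lc_iunion (A : Finset V) {Y C : Finset V} (h : Disjoint Y C) :
    icut n m A (Y ∪ C) = blobE n m Y (A \ (Y ∪ C)) + blobE n m C (A \ (Y ∪ C)) := by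
  rw [blob_icut, blobE_left h]

lemma lc_hcut {A Y : Finset V} (h : Y ⊆ A) : hcut n m Y = icut n m A Y + blobE n m Y Aᶜ := by
  rw [db_hcut h]
  simp only [dbOut, blobE, mem_compl]

/-- the second potential -/
def lcPsi (n : Equiv.Perm V) (m : V → V) (W : ℕ) (A B X : Finset V) : ℤ :=
  2 * W * icut n m A B +
    2 * W ^ 2 * (icut n m A X - X.card + 2 * (icut n m A B - blobE n m B X)) + 2 * X.card

lemma lc_bound {W Φ : ℕ} (hW : 0 < W) {A B X : Finset V} (h : Disjoint B X) (hXA : X ⊆ A)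
    (hX : X.card ≤ icut n m A X) (hΨ : lcPsi n m W A B X ≤ 2 * W * Φ) :
    icut n m A B ≤ Φ ∧ X.card ≤ W * Φ := by
  have e1 : blobE n m B X ≤ icut n m A B := by rw [lc_split h hXA]; omega
  have e2 : (0 : ℤ) ≤ 2 * W ^ 2 * (icut n m A X - X.card + 2 * (icut n m A B - blobE n m B X)) :=
    mul_nonneg (by positivity) (by omega)
  unfold lcPsi at hΨ
  have e3 : (0 : ℤ) ≤ 2 * W * icut n m A B := by positivity
  constructor
  · have : (2 * W : ℤ) * icut n m A B ≤ 2 * W * Φ := by omega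
    exact_mod_cast le_of_mul_le_mul_left this (by positivity)
  · have : (X.card : ℤ) ≤ W * Φ := by linarith
    exact_mod_cast this

lemma lc_drop (hm : ∀ v, m (m v) = v) {W : ℕ} {A B P X : Finset V} (h : Disjoint B P)
    (hX : Disjoint (B ∪ P) X) (hB : B ⊆ A) (hPA : P ⊆ A) (hXA : X ⊆ A) (hP : P.card ≤ W)
    (hd : hcut n m P ≤ P.card + 2) (hi : 1 ≤ blobE n m P (A \ (B ∪ P)))
    (hj : 2 ≤ blobE n m P (A \ (B ∪ P)) + blobE n m P Aᶜ) :
    lcPsi n m W A B (X ∪ P) ≤ lcPsi n m W A (B ∪ P) X := by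
  have hXP : Disjoint X P := (disjoint_union_left.1 hX).2.symm
  have e0 := lc_hcut (n := n) (m := m) hPA
  have e1 := lc_split (n := n) (m := m) h hPA
  have e2 := lc_split' (n := n) (m := m) h hB
  have e3 := lc_iunion (n := n) (m := m) A h
  have e4 := blobE_comm (n := n) hm B P
  have f1 := lc_split (n := n) (m := m) hXP hPA
  have f2 := lc_split' (n := n) (m := m) hXP hXA
  have f3 := lc_iunion (n := n) (m := m) A hXP
  have f4 := blobE_comm (n := n) hm X P
  have g1 := blobE_right (n := n) (m := m) B hXP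
  have g2 := blobE_left (n := n) (m := m) h X
  have g3 := card_union_of_disjoint hXP
  have k1 : (icut n m A B : ℤ) ≤ icut n m A (B ∪ P) + W - 1 := by omega
  have k2 : (icut n m A (X ∪ P) : ℤ) - (X ∪ P).card + 2 * (icut n m A B - blobE n m B (X ∪ P))
      ≤ icut n m A X - X.card + 2 * (icut n m A (B ∪ P) - blobE n m (B ∪ P) X) - 1 := by omega
  have k3 : ((X ∪ P).card : ℤ) ≤ X.card + W := by omega
  have k4 := mul_le_mul_of_nonneg_left k1 (show (0 : ℤ) ≤ 2 * W by positivity)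
  have k5 := mul_le_mul_of_nonneg_left k2 (show (0 : ℤ) ≤ 2 * W ^ 2 by positivity)
  unfold lcPsi
  linarith

lemma lc_side {W k : ℕ} {A Z Z' X : Finset V} (h : Disjoint Z Z') (hX : Disjoint (Z ∪ Z') X)
    (hZA : Z' ⊆ A) (hXA : X ⊆ A) (hc : blobE n m Z Z' < k)
    (hZ : blobE n m Z (A \ (Z ∪ Z')) ≤ blobE n m Z' (A \ (Z ∪ Z')))
    (hΨ : lcPsi n m W A (Z ∪ Z') X ≤ 2 * W * ((2 * W + 1) * ((2 * W + 2) * k) : ℕ)) :
    lcPsi n m W A Z X ≤ 2 * W * ((2 * W + 1) * ((2 * W + 2) * k) : ℕ) ∨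
      lcPsi n m W A Z ∅ ≤ 2 * W * ((2 * W + 1) * ((2 * W + 2) * k) : ℕ) := by
  have e1 := lc_split (n := n) (m := m) h hZA
  have e3 := lc_iunion (n := n) (m := m) A h
  have g2 := blobE_left (n := n) (m := m) h X
  have g3 : blobE n m Z' X ≤ blobE n m Z' (A \ (Z ∪ Z')) :=
    blobE_mono _ fun v hv => mem_sdiff.2 ⟨hXA hv, fun h' => disjoint_left.1 hX h' hv⟩
  have hW : (0 : ℤ) ≤ W := by positivity
  by_cases hb : 2 * ((2 * W + 1) * k) ≤ icut n m A (Z ∪ Z')
  · refine Or.inl (le_trans ?_ hΨ)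
    have k0 : (2 : ℤ) * ((2 * W + 1) * k) ≤ icut n m A (Z ∪ Z') := by exact_mod_cast hb
    have k1 : 2 * (icut n m A Z : ℤ) ≤ icut n m A (Z ∪ Z') + 2 * k := by omega
    have k2 : (icut n m A Z : ℤ) - blobE n m Z X
        ≤ icut n m A (Z ∪ Z') - blobE n m (Z ∪ Z') X + k := by omega
    have k4 := mul_le_mul_of_nonneg_left k1 hW
    have k5 := mul_le_mul_of_nonneg_left k2 (sq_nonneg (W : ℤ))
    have k6 := mul_le_mul_of_nonneg_left k0 hW
    unfold lcPsi
    linarith
  · refine Or.inr ?_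
    have k1 : icut n m A Z ≤ (2 * W + 2) * k := by
      have : (2 * W + 2) * k = (2 * W + 1) * k + k := by ring
      omega
    have k2 : (icut n m A Z : ℤ) ≤ (2 * W + 2) * k := by exact_mod_cast k1
    have k3 := mul_le_mul_of_nonneg_left k2 (show (0 : ℤ) ≤ 2 * W * (2 * W + 1) by positivity)
    have k4 : icut n m A ∅ = 0 := by simp [icut]
    have k5 : blobE n m Z ∅ = 0 := by simp [blobE]
    unfold lcPsi
    rw [k4, k5, card_empty]
    push_cast
    linarith

/-- blobs inside a set with far apart boundary edges -/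
theorem blobL (hm : ∀ v, m (m v) = v) (k D Φ D1 K Φ0 : ℕ)
    (hΦ : Φ = (2 * (D + 1) + 1) * ((2 * (D + 1) + 2) * k)) (hD1 : (D + 1) * Φ + D + 3 ≤ D1)
    (hK : D1 + 2 * Φ ≤ K) (A : Finset V) (hA : Blob n m A 0 D1 Φ0 K) :
    ∃ B ⊆ A, icut n m A B ≤ Φ ∧ Blob n m B k D (hcut n m B + 2 * Φ) K ∧
      ∀ Y ⊆ B, 2 * Φ < Y.card → 2 * Φ < (B \ Y).card → k ≤ icut n m B Y := by
  set W := D + 1 with hW
  have hW0 : 0 < W := by omega
  have hX0 : ∀ X ⊆ A, X.card ≤ D1 → X.card ≤ icut n m A X := fun X h1 h2 => by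
    rcases X.eq_empty_or_nonempty with rfl | h
    · simp
    · exact (db_small hm hA (by omega) X h1 h2 h).le
  have hbig : ∀ Z ⊆ A, 2 * Φ < Z.card → icut n m A Z ≤ Φ → K < Z.card := fun Z h1 h2 h3 => by
    by_contra h
    have := db_mid hm hA (by omega) (by omega) Z h1 (by omega)
    omega
  have hex : ∃ c, ∃ B X : Finset V, B.card = c ∧ B ⊆ A ∧ X ⊆ A ∧ Disjoint B X ∧ K < B.card ∧
      X.card ≤ D1 ∧ lcPsi n m W A B X ≤ 2 * W * Φ := by
    refine ⟨_, A, ∅, rfl, subset_rfl, empty_subset _, disjoint_empty_right _, hA.big, by simp, ?_⟩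
    have k1 : icut n m A A = 0 := by rw [blob_icut]; simp [blobE]
    have k4 : icut n m A ∅ = 0 := by simp [icut]
    have k5 : blobE n m A ∅ = 0 := by simp [blobE]
    unfold lcPsi
    rw [k1, k4, k5, card_empty]
    push_cast
    have : (0 : ℤ) ≤ 2 * W * Φ := by positivity
    linarith
  classical
  obtain ⟨B, X, hc, h1, h2, h3, h4, h5, h6⟩ := Nat.find_spec hex
  have hmin : ∀ B' X' : Finset V, B' ⊆ A → X' ⊆ A → Disjoint B' X' → 2 * Φ < B'.card →
      X'.card ≤ D1 → lcPsi n m W A B' X' ≤ 2 * W * Φ → B.card ≤ B'.card :=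
    fun B' X' a1 a2 a3 a4 a5 a6 => hc ▸ Nat.find_min' hex ⟨B', X', rfl, a1, a2, a3,
      hbig B' a1 a4 (lc_bound hW0 a3 a2 (hX0 X' a2 a5) a6).1, a5, a6⟩
  obtain ⟨b1, b2⟩ := lc_bound hW0 h3 h2 (hX0 X h2 h5) h6
  have conn : ∀ Y ⊆ B, 2 * Φ < Y.card → 2 * Φ < (B \ Y).card → k ≤ icut n m B Y := by
    intro Y hY c1 c2
    by_contra hlt
    rw [blob_icut, not_le] at hlt
    have key : ∀ Z Z' : Finset V, Disjoint Z Z' → Z ∪ Z' = B → 2 * Φ < Z.card → 2 * Φ < Z'.card →
        blobE n m Z Z' < k → ¬blobE n m Z (A \ B) ≤ blobE n m Z' (A \ B) := by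
      rintro Z Z' z1 rfl z2 z3 z4 z5
      have q1 := card_union_of_disjoint z1
      have q2 : Z ⊆ A := subset_union_left.trans h1
      rcases lc_side z1 h3 (subset_union_right.trans h1) h2 z4 z5 (hΦ ▸ h6) with z6 | z6
      · have := hmin Z X q2 h2 (h3.mono_left subset_union_left) z2 h5 (hΦ ▸ z6)
        omega
      · have := hmin Z ∅ q2 (empty_subset _) (disjoint_empty_right _) z2 (by simp) (hΦ ▸ z6)
        omega
    rcases le_total (blobE n m Y (A \ B)) (blobE n m (B \ Y) (A \ B)) with h | h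
    · exact key Y (B \ Y) disjoint_sdiff (union_sdiff_of_subset hY) c1 c2 hlt h
    · exact key (B \ Y) Y sdiff_disjoint (sdiff_union_of_subset hY) c2 c1
        (blobE_comm hm Y _ ▸ hlt) h
  refine ⟨B, h1, b1, ⟨fun a l a' l' w c1 c2 c3 c4 c5 => ?_, by omega, h4,
    fun Y hY => hA.forest Y (hY.trans h1), fun Y hY c1 c2 => conn Y hY (by omega) (by omega)⟩, conn⟩
  by_contra hne
  obtain ⟨P, p1, p2, p3, p4, p5⟩ := blob_walk hm B a w c3
  rw [c5] at p3
  have e : B \ P ∪ P = B := sdiff_union_of_subset p1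
  have ins : ∀ w : List (Fin 3), Ins n m B w a → Ins n m A w a := fun w => by
    induction w with
    | nil => exact fun h => h1 h
    | cons c w ih => exact fun h => ⟨ih h.1, h1 h.2⟩
  have hi : 1 ≤ blobE n m P (A \ (B \ P ∪ P)) := by
    rw [e]
    by_cases a1 : step n m l a ∈ A
    · exact card_pos.2 ⟨(a, l), mem_filter.2 ⟨mem_univ _, p2, mem_sdiff.2 ⟨a1, c1⟩⟩⟩
    by_cases a2 : step n m l' a' ∈ A
    · exact card_pos.2 ⟨(a', l'), mem_filter.2 ⟨mem_univ _, p3, mem_sdiff.2 ⟨a2, c2⟩⟩⟩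
    exact absurd (hA.clean a l a' l' w a1 a2 (ins w c3) (by omega) c5) hne
  have hj : 2 ≤ blobE n m P (A \ (B \ P ∪ P)) + blobE n m P Aᶜ := by
    rw [e, ← blobE_right P (disjoint_compl_right.mono_left sdiff_subset)]
    have k : ∀ v, v ∉ B → v ∈ A \ B ∪ Aᶜ := fun v h => by
      simp only [mem_sdiff, mem_union, mem_compl]
      tauto
    exact one_lt_card.2 ⟨(a, l), mem_filter.2 ⟨mem_univ _, p2, k _ c1⟩, (a', l'),
      mem_filter.2 ⟨mem_univ _, p3, k _ c2⟩, fun h => hne (Prod.ext_iff.1 h)⟩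
  have d := lc_drop (W := W) hm sdiff_disjoint (e.symm ▸ h3) (sdiff_subset.trans h1) (p1.trans h1)
    h2 (by omega) p5 hi hj
  rw [e] at d
  have q1 := card_sdiff_add_card_eq_card p1
  have q2 := card_pos.2 ⟨a, p2⟩
  have q3 := card_union_le X P
  have := hmin (B \ P) (X ∪ P) (sdiff_subset.trans h1) (union_subset h2 (p1.trans h1))
    (disjoint_union_right.2 ⟨h3.mono_left sdiff_subset, sdiff_disjoint⟩) (by omega) (by omega)
    (d.trans h6)
  omega

end Pool.Agent.Lib.MP_c8786f_co.W5
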