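import Pool.Agent.Lib.MP_c8786f_co.Loc.B
import Pool.Agent.Lib.MP_c8786f_co.Loc.C

/-!
Local form of the reducible set theorem: the final statement.
-/

namespace Pool.Agent.Lib.MP_c8786f_co.W5

open Finset

set_option linter.unusedSectionVars false

lemma ld_le {V : Type} [Fintype V] [DecidableEq V] {n : Equiv.Perm V} {m : V → V} {B : Finset V}
    (h : ∀ a ∈ B, ∀ l l', step n m l a ∉ B → step n m l' a ∉ B → l = l') :
    hcut n m B ≤ B.card := by
  refine fin_hcut_le n m B fun y hy => ?_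
  by_cases h0 : step n m 0 y ∈ B
  · by_cases h1 : step n m 1 y ∈ B
    · exact ⟨0, 1, by decide, h0, h1⟩
    · exact ⟨0, 2, by decide, h0, by_contra fun h2 => absurd (h y hy 1 2 h1 h2) (by decide)⟩
  · exact ⟨1, 2, by decide, by_contra fun h1 => absurd (h y hy 0 1 h0 h1) (by decide),
      by_contra fun h2 => absurd (h y hy 0 2 h0 h2) (by decide)⟩

lemma ld_degsum {V E : Type} [Fintype V] [DecidableEq V] [Fintype E] (s t : E → V) (Y : Finset V)
    (hdeg : ∀ v ∈ Y, (univ.filter fun e => s e = v).card + (univ.filter fun e => t e = v).card = 3) :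
    3 * Y.card = 2 * (univ.filter fun e => s e ∈ Y ∧ t e ∈ Y).card + cut s t Y := by
  have h1 : 3 * Y.card = ∑ v ∈ Y,
      ((univ.filter fun e => s e = v).card + (univ.filter fun e => t e = v).card) := by
    rw [sum_congr rfl hdeg]
    simp [mul_comm]
  rw [h1]
  unfold cut
  simp only [card_filter]
  rw [sum_add_distrib, sum_comm, sum_comm (s := Y), ← sum_add_distrib, mul_sum,
    ← sum_add_distrib]
  refine sum_congr rfl fun e _ => ?_
  simp only [sum_ite_eq]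
  by_cases h1 : s e ∈ Y <;> by_cases h2 : t e ∈ Y <;> simp [h1, h2]

lemma ld_cyc {V E : Type} [Fintype V] [DecidableEq V] [Fintype E] (s t : E → V) (A : Finset V)
    (hdeg : ∀ v ∈ A, (univ.filter fun e => s e = v).card + (univ.filter fun e => t e = v).card = 3)
    (C : Finset E) (h1 : C.Nonempty) (h2 : ∀ e ∈ C, s e ∈ A ∧ t e ∈ A)
    (h3 : ∀ v, Even ((C.filter fun e => s e = v).card + (C.filter fun e => t e = v).card)) :
    ∃ Y ⊆ A, Y.Nonempty ∧ cut s t Y ≤ Y.card := by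
  set Y := A.filter fun v =>
    0 < (C.filter fun e => s e = v).card + (C.filter fun e => t e = v).card with hY
  have a1 : ∀ e ∈ C, s e ∈ Y ∧ t e ∈ Y := fun e he =>
    ⟨mem_filter.2 ⟨(h2 e he).1, Nat.add_pos_left (card_pos.2 ⟨e, by simp [he]⟩) _⟩,
      mem_filter.2 ⟨(h2 e he).2, Nat.add_pos_right _ (card_pos.2 ⟨e, by simp [he]⟩)⟩⟩
  obtain ⟨e, he⟩ := h1
  refine ⟨Y, filter_subset _ _, ⟨_, (a1 e he).1⟩, ?_⟩
  have a2 := ld_degsum s t Y fun v hv => hdeg v (mem_filter.1 hv).1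
  have a3 : C.card ≤ (univ.filter fun e => s e ∈ Y ∧ t e ∈ Y).card :=
    card_le_card fun e he => mem_filter.2 ⟨mem_univ _, a1 e he⟩
  have a4 := card_eq_sum_card_fiberwise (s := C) (t := Y) (f := s) fun e he => (a1 e he).1
  have a5 := card_eq_sum_card_fiberwise (s := C) (t := Y) (f := t) fun e he => (a1 e he).2
  have a6 : Y.card • 2 ≤
      ∑ v ∈ Y, ((C.filter fun e => s e = v).card + (C.filter fun e => t e = v).card) :=
    card_nsmul_le_sum _ _ _ fun v hv => by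
      have b1 := (mem_filter.1 hv).2
      obtain ⟨j, hj⟩ := h3 v
      omega
  rw [sum_add_distrib, smul_eq_mul] at a6
  omega

lemma ld_fin {G k D N Φ D1 K : ℕ} (hG : 32 ≤ G) (hk : k ≤ G) (hD : D ≤ G + 2)
    (hΦ : Φ = (2 * (D + 1) + 1) * ((2 * (D + 1) + 2) * k)) (h1 : D1 = (D + 1) * Φ + D + 3)
    (hK : K = D1 + 2 + (D1 + 2) * (N + 1) * (2 * D1 + 3) + 2 * Φ + D + 1) :
    K + 1 ≤ G ^ 18 * (N + 1) ∧ ∀ a, Φ + (3 * D1 + 7) * a < G ^ 18 * (a + 1) := by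
  have a1 : Φ ≤ 16 * G ^ 3 :=
    calc Φ ≤ 4 * G * (4 * G * G) := by rw [hΦ]; gcongr <;> omega
      _ = _ := by ring
  have a2 : G ≤ G ^ 3 := Nat.le_self_pow (by norm_num) G
  have a3 : 32 * G ^ 3 ≤ G ^ 4 := by rw [pow_succ' G 3]; gcongr
  have a4 : (D + 1) * Φ ≤ 32 * G ^ 4 :=
    calc _ ≤ 2 * G * (16 * G ^ 3) := by gcongr; omega
      _ = _ := by ring
  have a5 : 32 * G ^ 4 ≤ G ^ 5 := by rw [pow_succ' G 4]; gcongr
  have a6 : 32 * G ^ 5 ≤ G ^ 6 := by rw [pow_succ' G 5]; gcongr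
  have a7 : 9 * D1 + 21 ≤ G ^ 6 := by omega
  have a8 : (D1 + 2) * (N + 1) * (2 * D1 + 3) ≤ G ^ 12 * (N + 1) :=
    calc _ ≤ G ^ 6 * (N + 1) * G ^ 6 := by gcongr <;> omega
      _ = _ := by ring
  have a9 : G ^ 6 ≤ G ^ 12 := Nat.pow_le_pow_right (by omega) (by norm_num)
  have b1 : ∀ a, G ^ 12 * 1 ≤ G ^ 12 * (a + 1) := fun a => by gcongr; omega
  have b2 : ∀ a, 32 * (G ^ 12 * (a + 1)) ≤ G ^ 18 * (a + 1) := fun a =>
    calc _ ≤ G ^ 6 * (G ^ 12 * (a + 1)) := by gcongr; omega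
      _ = _ := by ring
  refine ⟨by have := b1 N; have := b2 N; omega, fun a => ?_⟩
  have b3 : (3 * D1 + 7) * a ≤ G ^ 12 * (a + 1) := by gcongr <;> omega
  have := b1 a
  have := b2 a
  omega

/-- boundary values extend -/
lemma ld_loc {V E : Type} [Fintype V] [DecidableEq V] [Fintype E] {s t : E → V} {n : Equiv.Perm V}
    {m : V → V} {L : E → Fin 3}
    (hdeg : ∀ v, (univ.filter fun e => s e = v).card + (univ.filter fun e => t e = v).card = 3)
    (hm : ∀ v, m (m v) = v) (hst : ∀ e, step n m (L e) (s e) = t e)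
    (h : Function.Bijective (fxD s t L)) (B : Finset V) (p q : ℕ) (hp : 0 < p) (hpq : 2 * q ≤ p)
    (hE : Ext n m B (1 - 2 * q / p)) (ft : E → ℤ)
    (hft : ∀ e, ¬(s e ∈ B ↔ t e ∈ B) → (q : ℤ) ≤ ft e ∧ ft e ≤ p - q)
    (hfb : (p : ℤ) ∣ ∑ e with t e ∈ B ∧ s e ∉ B, ft e - ∑ e with s e ∈ B ∧ t e ∉ B, ft e) :
    ∃ z : E → ℝ, (∀ e, (q : ℝ) ≤ z e ∧ z e ≤ p - q) ∧ (∀ e, ¬(s e ∈ B ↔ t e ∈ B) → z e = ft e) ∧
      ∀ v ∈ B, ∃ c : ℤ, bd s t z v = p * c := by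
  have hp' : (0 : ℝ) < p := by exact_mod_cast hp
  have hts : ∀ e, step n m (inv (L e)) (t e) = s e := fun e => by rw [← hst e, step_inv n hm]
  obtain ⟨a, ha⟩ : ∃ a : E → ℝ, ∀ e,
      a e = if (s e ∈ B ↔ t e ∈ B) then (0 : ℝ) else 1 - 2 * ft e / p := ⟨_, fun _ => rfl⟩
  have hq0 : (0 : ℝ) ≤ 2 * q / p := by positivity
  have hq1 : (2 * q / p : ℝ) ≤ 1 := by
    rw [div_le_one hp']; exact_mod_cast hpq
  have har : ∀ e, |a e| ≤ 1 - 2 * q / p := by
    intro e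
    rw [ha]
    split_ifs with h1
    · rw [abs_zero]; linarith
    · have h2 : (q : ℝ) ≤ ft e := by exact_mod_cast (hft e h1).1
      have h3 : (ft e : ℝ) ≤ p - q := by exact_mod_cast (hft e h1).2
      have h4 : (2 * q / p : ℝ) ≤ 2 * ft e / p := by gcongr
      have h5 : (2 * ft e / p : ℝ) ≤ 2 * (p - q) / p := by gcongr
      have h6 : (2 * (p - q) / p : ℝ) = 2 - 2 * q / p := by field_simp
      rw [abs_le]; constructor <;> linarith
  obtain ⟨x, hx1, hx2⟩ : ∃ x : V × Fin 3 → ℝ, (∀ e, x (s e, L e) = a e) ∧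
      ∀ e, x (t e, inv (L e)) = -a e := by
    refine ⟨fun d => Sum.elim a (fun e => -a e) ((Equiv.ofBijective _ h).symm d), fun e => ?_,
      fun e => ?_⟩
    · exact congrArg _ ((Equiv.ofBijective _ h).symm_apply_apply (.inl e))
    · exact congrArg _ ((Equiv.ofBijective _ h).symm_apply_apply (.inr e))
  obtain ⟨g, hg⟩ := hE x
    (fun d => by
      obtain ⟨e | e, rfl⟩ := h.2 d
      · exact (congrArg abs (hx1 e)).trans_le ((har e).trans (by linarith))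
      · refine (congrArg abs (hx2 e)).trans_le ?_
        rw [abs_neg]; exact (har e).trans (by linarith))
    (by
      obtain ⟨c0, hc0⟩ := hfb
      have h1 : ∑ e with t e ∈ B ∧ s e ∉ B, (ft e : ℝ) - ∑ e with s e ∈ B ∧ t e ∉ B, (ft e : ℝ) =
          p * c0 := by exact_mod_cast hc0
      have h2 : (3 * B.card : ℝ) = 2 * (univ.filter fun e => s e ∈ B ∧ t e ∈ B).card +
          cut s t B := by exact_mod_cast fin_degsum s t hdeg B
      refine ⟨B.card - (univ.filter fun e => s e ∈ B ∧ t e ∈ B).card -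
        (univ.filter fun e => t e ∈ B ∧ s e ∉ B).card + c0, ?_⟩
      have h3 : ∑ d with d.1 ∈ B ∧ step n m d.2 d.1 ∉ B, x d = cut s t B -
          2 * (univ.filter fun e => t e ∈ B ∧ s e ∉ B).card +
          2 / p * (∑ e with t e ∈ B ∧ s e ∉ B, (ft e : ℝ) -
            ∑ e with s e ∈ B ∧ t e ∉ B, (ft e : ℝ)) := by
        unfold cut
        rw [sum_filter, fx_sum h]
        simp only [card_filter, sum_filter]
        push_cast
        rw [mul_sum, ← sum_sub_distrib, ← sum_sub_distrib, mul_sum, ← sum_add_distrib]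
        refine sum_congr rfl fun e _ => ?_
        simp only [hst, hts, hx1, hx2, ha]
        by_cases h4 : s e ∈ B <;> by_cases h5 : t e ∈ B <;> simp [h4, h5] <;> ring
      rw [h3, h1, ← mul_assoc, div_mul_cancel₀ _ hp'.ne']
      push_cast
      linarith)
  obtain ⟨γ, hγ⟩ : ∃ γ : E → ℝ, ∀ e, γ e = if s e ∈ B ∧ t e ∈ B then g (s e, L e) else a e :=
    ⟨_, fun _ => rfl⟩
  have hγs : ∀ e, s e ∈ B → g (s e, L e) = γ e := by
    intro e he
    rw [hγ]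
    split_ifs with h1
    · rfl
    · rw [((hg _ he).2 _).1 (by rw [hst]; tauto), hx1]
  have hγt : ∀ e, t e ∈ B → g (t e, inv (L e)) = -γ e := by
    intro e he
    rw [hγ]
    split_ifs with h1
    · rw [← (((hg _ h1.1).2 (L e)).2 (by rw [hst]; exact he)).1, hst]
    · rw [((hg _ he).2 _).1 (by rw [hts]; tauto), hx2]
  have hγr : ∀ e, |γ e| ≤ 1 - 2 * q / p := by
    intro e
    rw [hγ]
    split_ifs with h1
    · exact (((hg _ h1.1).2 (L e)).2 (by rw [hst]; exact h1.2)).2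
    · exact har e
  have hγb : ∀ v ∈ B, bd s t γ v = ∑ l, g (v, l) := by
    intro v hv
    have h1 : ∑ l, g (v, l) = ∑ d : V × Fin 3, if d.1 = v then g d else 0 := by
      rw [Fintype.sum_prod_type, sum_comm]
      simp
    rw [h1, fx_sum h]
    unfold bd
    rw [sum_filter, sum_filter, ← sum_sub_distrib]
    refine sum_congr rfl fun e _ => ?_
    rw [sub_eq_add_neg]
    congr 1
    · split_ifs with h2
      · exact (hγs e (h2 ▸ hv)).symm
      · rfl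
    · split_ifs with h2
      · exact (hγt e (h2 ▸ hv)).symm
      · exact neg_zero
  have hz : ∀ e, ¬(s e ∈ B ↔ t e ∈ B) → (p / 2 : ℝ) * (1 - γ e) = ft e := by
    intro e he
    rw [hγ, ha, if_neg he, if_neg (by tauto)]
    field_simp
    ring
  have hzr : ∀ e, (q : ℝ) ≤ p / 2 * (1 - γ e) ∧ p / 2 * (1 - γ e) ≤ p - q := by
    intro e
    have h1 := abs_le.mp (hγr e)
    have h2 : (p / 2 : ℝ) * (2 * q / p) = q := by field_simp
    have h3 : (0 : ℝ) ≤ p / 2 := by positivity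
    have h4 := mul_le_mul_of_nonneg_left h1.1 h3
    have h5 := mul_le_mul_of_nonneg_left h1.2 h3
    constructor <;> linarith
  refine ⟨fun e => p / 2 * (1 - γ e), hzr, hz, fun v hv => ?_⟩
  have h1 := hγb v hv
  have h2 : ((univ.filter fun e => s e = v).card : ℝ) +
      ((univ.filter fun e => t e = v).card : ℝ) = 3 := by exact_mod_cast hdeg v
  unfold bd at h1 ⊢
  simp only [← mul_sum, sum_sub_distrib, sum_const, nsmul_eq_mul, mul_one]
  rcases (hg v hv).1 with h3 | h3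
  · refine ⟨(univ.filter fun e => s e = v).card - 2, ?_⟩
    push_cast
    linear_combination (-p / 2 : ℝ) * (h1.trans h3) - (p / 2 : ℝ) * h2
  · refine ⟨(univ.filter fun e => s e = v).card - 1, ?_⟩
    push_cast
    linear_combination (-p / 2 : ℝ) * (h1.trans h3) - (p / 2 : ℝ) * h2

lemma ld_cnt {V E : Type} [Fintype V] [DecidableEq V] [Fintype E] {s t : E → V} {n : Equiv.Perm V}
    {m : V → V} {L : E → Fin 3} (hm : ∀ v, m (m v) = v) (hst : ∀ e, step n m (L e) (s e) = t e)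
    (hbij : Function.Bijective (fxD s t L)) {Y A : Finset V} (hY : Y ⊆ A) : blobE n m Y Aᶜ =
      (univ.filter fun e => (s e ∈ Y ∧ t e ∉ A) ∨ (t e ∈ Y ∧ s e ∉ A)).card := by
  unfold blobE
  rw [card_filter, card_filter, fx_sum hbij]
  refine sum_congr rfl fun e _ => ?_
  have h1 : step n m (inv (L e)) (t e) = s e := by rw [← hst e, step_inv n hm]
  have h3 := @hY (s e)
  have h4 := @hY (t e)
  simp only [hst, h1, mem_compl]
  clear h1 hbij hst hm hY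
  by_cases a1 : s e ∈ Y <;> by_cases a2 : t e ∈ Y <;> by_cases a3 : s e ∈ A <;>
    by_cases a4 : t e ∈ A <;> simp_all

theorem finalM (a p q N : ℕ) (hp : 0 < p) (hpq : 4 * a * q + p ≤ a * p) :
    ∃ K, K + 1 ≤ 2 ^ (2 ^ 75 * a ^ 5) * (N + 1) ∧
    ∀ (V E : Type) [Fintype V] [Fintype E] [DecidableEq V] (s t : E → V),
    (∀ v, (univ.filter fun e => s e = v).card + (univ.filter fun e => t e = v).card = 3) →
    (∀ Y, cut s t Y ≠ 1) → ∀ A : Finset V,
    (∀ Y ⊆ A, Y.Nonempty → Y.card ≤ K → Y.card + 2 ≤ cut s t Y) →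
    (∀ Y ⊆ A, Y.card ≤ K → cut s t Y ≤ Y.card + 2 →
      (univ.filter fun e => (s e ∈ Y ∧ t e ∉ A) ∨ (t e ∈ Y ∧ s e ∉ A)).card ≤ N) →
    (∃ Y ⊆ A, Y.Nonempty ∧ cut s t Y ≤ Y.card) →
    ∃ B ⊆ A, B.Nonempty ∧ cut s t B ≤ B.card ∧
      cut s t B < 2 ^ (2 ^ 75 * a ^ 5) * (cut s t A + 1) ∧ ∀ ft : E → ℤ,
      (∀ e, ¬(s e ∈ B ↔ t e ∈ B) → (q : ℤ) ≤ ft e ∧ ft e ≤ p - q) →
      (p : ℤ) ∣ ∑ e with t e ∈ B ∧ s e ∉ B, ft e - ∑ e with s e ∈ B ∧ t e ∉ B, ft e →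
      ∃ z : E → ℝ, (∀ e, (q : ℝ) ≤ z e ∧ z e ≤ p - q) ∧
        (∀ e, ¬(s e ∈ B ↔ t e ∈ B) → z e = ft e) ∧ ∀ v ∈ B, ∃ c : ℤ, bd s t z v = p * c := by
  have hp' : (0 : ℝ) < p := by exact_mod_cast hp
  have ha : 0 < a := Nat.pos_of_ne_zero fun h => by subst h; omega
  have ha' : (0 : ℝ) < a := by exact_mod_cast ha
  have hR : (4 * a * q + p : ℝ) ≤ a * p := by exact_mod_cast hpq
  have hq : 2 * q ≤ p := by nlinarith only [hpq, ha, Nat.zero_le (a * q)]
  obtain ⟨b, hkb, hb2⟩ := x_b2 (show 8 * a ≠ 0 by positivity)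
  obtain ⟨D, hDb, hD⟩ := modelXL (8 * a) b (1 / 2 - 2 / (8 * a : ℕ) - 2 * q / p) (by omega)
    hkb (by
    have : (1 / 2 - 2 / (8 * a : ℕ) - 2 * q / p : ℝ) =
        (2 * (a * p - 4 * a * q) - p) / (4 * a * p) := by
      push_cast; field_simp; ring
    have h1 : (8 * a : ℝ) ≤ 2 ^ b := by exact_mod_cast hkb
    rw [this, div_mul_eq_mul_div, le_div_iff₀ (by positivity)]
    calc _ ≤ (p : ℝ) * (8 * a) := by nlinarith only [mul_pos ha' hp']
      _ ≤ _ := mul_le_mul (by linarith) h1 (by positivity) (by linarith))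
  obtain ⟨Φ, hΦ⟩ : ∃ Φ, Φ = (2 * (D + 1) + 1) * ((2 * (D + 1) + 2) * (8 * a)) := ⟨_, rfl⟩
  obtain ⟨D1, hD1⟩ : ∃ D1, D1 = (D + 1) * Φ + D + 3 := ⟨_, rfl⟩
  obtain ⟨K, hK⟩ : ∃ K, K = D1 + 2 + (D1 + 2) * (N + 1) * (2 * D1 + 3) + 2 * Φ + D + 1 :=
    ⟨_, rfl⟩
  obtain ⟨hg1, hg2⟩ := ld_fin (x_G b).2 (hkb.trans (x_G b).1) hDb hΦ hD1 hK
  have hC : (2 ^ 2 ^ (5 * b + 50)) ^ 18 ≤ 2 ^ (2 ^ 75 * a ^ 5) := x_pow hb2 (by
    rw [show 2 ^ 50 * 18 * (2 * (8 * a)) ^ 5 = 2 ^ 50 * 18 * 16 ^ 5 * a ^ 5 by ring]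
    exact Nat.mul_le_mul_right _ (by norm_num))
  have hgb := hg1.trans (Nat.mul_le_mul_right _ hC)
  have hgc := fun c => (hg2 c).trans_le (Nat.mul_le_mul_right _ hC)
  clear hg1 hg2 hC hDb hb2 hkb
  generalize 2 ^ (2 ^ 75 * a ^ 5) = G at *
  refine ⟨K, hgb, fun V E _ _ _ s t hdeg hbr A0 hfor0 hloc hcyc => ?_⟩
  have : DecidableEq E := Classical.decEq E
  obtain ⟨n, m, L, hm, hst, hbij⟩ := fx_model s t hdeg hbr
  simp only [← fx_hcut hm hst hbij] at hfor0 hloc hcyc ⊢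
  obtain ⟨A, hAS, hA0, hA1, hA2⟩ := cleanL hm D1 N K A0 (by omega) hfor0
    (fun Y hY h1 h2 => by
      refine le_trans (le_of_eq ?_) (hloc Y hY h1 h2)
      exact ld_cnt hm hst hbij hY) hcyc
  have hA : Blob n m A 0 D1 (hcut n m A) K :=
    ⟨hA2, le_rfl, by
      by_contra h
      have a1 := hfor0 A hAS hA0 (by omega)
      have a2 : hcut n m A ≤ A.card :=
        ld_le fun a ha l l' h1 h2 => (hA2 a l a l' [] h1 h2 ha (Nat.zero_le _) rfl).2
      omega, fun Y hY => hfor0 Y (hY.trans hAS), fun _ _ _ _ => Nat.zero_le _⟩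
  obtain ⟨B, hBA, hB1, hb, hB2⟩ := blobL hm (8 * a) D Φ D1 K _ hΦ hD1.ge (by omega) A hA
  refine ⟨B, hBA.trans hAS, card_pos.1 (by have := hb.big; omega),
    ld_le fun a ha l l' h1 h2 => (hb.clean a l a l' [] h1 h2 ha (Nat.zero_le _) rfl).2, ?_,
    ld_loc hdeg hm hst hbij B p q hp hq ?_⟩
  · have h1 := lc_hcut (n := n) (m := m) hBA
    have h2 := blobE_left (n := n) (m := m) (disjoint_sdiff (s := B) (t := A)) Aᶜ
    rw [union_sdiff_of_subset hBA, ← blob_hcut] at h2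
    have h5 := hgc (hcut n m A0)
    omega
  · have h1 := hD (2 * Φ) _ K (by omega) V n m B hm hb hB2
    rwa [show (1 / 2 + 2 / (8 * a : ℕ) + (1 / 2 - 2 / (8 * a : ℕ) - 2 * q / p) : ℝ) =
      1 - 2 * q / p by ring] at h1

end Pool.Agent.Lib.MP_c8786f_co.W5
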