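import Pool.Agent.Lib.MP_c8786f_co.Loc.D

/-!
Local form of the reducible set theorem: arbitrary degrees in the exceptional set.
-/

namespace Pool.Agent.Lib.MP_c8786f_co.W5

open Finset

set_option linter.unusedSectionVars false

section Dbl

variable {V E : Type} [Fintype V] [DecidableEq V] [Fintype E] (s t : E → V) (S : Finset V)

/-- the edges that are kept in the double of the complement of `S` -/
abbrev deP (x : E × Bool) : Prop :=
  (s x.1 ∉ S ∨ t x.1 ∉ S) ∧ (x.2 = true → s x.1 ∉ S ∧ t x.1 ∉ S)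

/-- the edges of the double -/
abbrev DE : Type := {x : E × Bool // deP s t S x} ⊕ ({v // v ∈ S} × Fin 3)

def ds : DE s t S → V × Bool :=
  Sum.elim (fun x => if s x.1.1 ∈ S then (t x.1.1, true) else (s x.1.1, x.1.2))
    fun y => (y.1.1, false)

def dt : DE s t S → V × Bool :=
  Sum.elim (fun x => if t x.1.1 ∈ S then (s x.1.1, true) else (t x.1.1, x.1.2))
    fun y => (y.1.1, true)

def dp : DE s t S → Option E := Sum.elim (fun x => some x.1.1) fun _ => none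

lemma de_sum {M : Type} [AddCommMonoid M] (ψ : DE s t S → M) : ∑ x, ψ x =
    ∑ e, ((if h : deP s t S (e, true) then ψ (.inl ⟨_, h⟩) else 0) +
      if h : deP s t S (e, false) then ψ (.inl ⟨_, h⟩) else 0) +
    ∑ v : {v // v ∈ S}, ∑ i, ψ (.inr (v, i)) := by
  rw [Fintype.sum_sum_type, Fintype.sum_prod_type]
  congr 1
  have := fx_sub (deP s t S) (fun y => if h : deP s t S y then ψ (.inl ⟨y, h⟩) else 0)
    fun y hy => dif_neg hy
  rw [Fintype.sum_prod_type] at this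
  simp only [Fintype.sum_bool] at this
  rw [← this]
  exact sum_congr rfl fun x _ => by rw [dif_pos x.2]

lemma de_end {M : Type} [AddCommMonoid M] (F : Option E → V × Bool → V × Bool → M) :
    ∑ x, F (dp s t S x) (ds s t S x) (dt s t S x) =
      ∑ e, (if s e ∈ S then (if t e ∈ S then 0 else F (some e) (t e, true) (t e, false))
        else if t e ∈ S then F (some e) (s e, false) (s e, true)
        else F (some e) (s e, true) (t e, true) + F (some e) (s e, false) (t e, false)) +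
      ∑ v ∈ S, 3 • F none (v, false) (v, true) := by
  rw [de_sum]
  congr 1
  · refine sum_congr rfl fun e _ => ?_
    by_cases h1 : s e ∈ S <;> by_cases h2 : t e ∈ S <;> simp [deP, ds, dt, dp, h1, h2]
  · rw [← sum_coe_sort S]
    exact sum_congr rfl fun v _ => by simp [ds, dt, dp]

lemma de_deg (hdeg : ∀ v, v ∉ S →
      (univ.filter fun e => s e = v).card + (univ.filter fun e => t e = v).card = 3)
    (x : V × Bool) :
    (univ.filter fun e => ds s t S e = x).card + (univ.filter fun e => dt s t S e = x).card = 3 := by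
  obtain ⟨v, i⟩ := x
  rw [card_filter, card_filter, ← sum_add_distrib, de_end s t S
    fun _ a b => (if a = (v, i) then 1 else 0) + if b = (v, i) then 1 else 0]
  by_cases hv : v ∈ S
  · rw [sum_eq_zero, sum_eq_single_of_mem v hv]
    · cases i <;> simp
    · intro u _ hu
      simp [hu]
    · intro e _
      have a1 : s e ∉ S → s e ≠ v := fun h h' => h (h' ▸ hv)
      have a2 : t e ∉ S → t e ≠ v := fun h h' => h (h' ▸ hv)
      by_cases h1 : s e ∈ S <;> by_cases h2 : t e ∈ S <;> simp_all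
  · rw [sum_eq_zero (s := S), ← hdeg v hv, card_filter, card_filter, ← sum_add_distrib, add_zero]
    · refine sum_congr rfl fun e _ => ?_
      have a1 : s e ∈ S → s e ≠ v := fun h h' => hv (h' ▸ h)
      have a2 : t e ∈ S → t e ≠ v := fun h h' => hv (h' ▸ h)
      by_cases h1 : s e ∈ S <;> by_cases h2 : t e ∈ S <;> cases i <;> simp_all
    · intro u hu
      have : u ≠ v := fun h => hv (h ▸ hu)
      simp [this]

lemma de_br (hbr : ∀ Y : Finset V, cut s t Y ≠ 1) (Y : Finset (V × Bool)) :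
    cut (ds s t S) (dt s t S) Y ≠ 1 := by
  have h1 := hbr (univ.filter fun v => v ∉ S ∧ ¬((v, false) ∈ Y ↔ (v, true) ∈ Y))
  unfold cut at h1 ⊢
  rw [card_filter] at h1
  rw [card_filter, de_end s t S fun _ a b => if ¬(a ∈ Y ↔ b ∈ Y) then 1 else 0]
  simp only [smul_eq_mul]
  rw [← mul_sum, sum_congr rfl (g := fun e => (if ¬(s e ∈ univ.filter (fun v => v ∉ S ∧
      ¬((v, false) ∈ Y ↔ (v, true) ∈ Y)) ↔ t e ∈ univ.filter fun v => v ∉ S ∧
      ¬((v, false) ∈ Y ↔ (v, true) ∈ Y)) then 1 else 0) + 2 * if s e ∉ S ∧ t e ∉ S ∧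
      ¬((s e, true) ∈ Y ↔ (t e, true) ∈ Y) ∧ ¬((s e, false) ∈ Y ↔ (t e, false) ∈ Y) then 1 else 0)
    fun e _ => ?_, sum_add_distrib, ← mul_sum]
  · omega
  · simp only [mem_filter, mem_univ, true_and]
    by_cases h1 : s e ∈ S <;> by_cases h2 : t e ∈ S <;> by_cases h3 : (s e, true) ∈ Y <;>
      by_cases h4 : (t e, true) ∈ Y <;> by_cases h5 : (s e, false) ∈ Y <;>
      by_cases h6 : (t e, false) ∈ Y <;> simp [h1, h2, h3, h4, h5, h6]

/-- the first sheet -/
def sh (Y : Finset V) : Finset (V × Bool) := Y ×ˢ {false}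

lemma sh_mem (Y : Finset V) (v : V) : ((v, false) ∈ sh Y ↔ v ∈ Y) ∧ (v, true) ∉ sh Y := by
  simp [sh]

lemma sh_card (Y : Finset V) : (sh Y).card = Y.card := by simp [sh]

lemma sh_sub {A : Finset V} {Y : Finset (V × Bool)} (h : Y ⊆ sh A) : ∃ Y0 ⊆ A, Y = sh Y0 := by
  refine ⟨A.filter fun v => (v, false) ∈ Y, filter_subset _ _, ?_⟩
  ext ⟨v, i⟩
  have := @h (v, i)
  cases i <;> simp_all [sh]

lemma de_cut {Y : Finset V} (hY : Y ⊆ Sᶜ) : cut (ds s t S) (dt s t S) (sh Y) = cut s t Y := by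
  have hS : ∀ v ∈ S, v ∉ Y := fun v h h' => mem_compl.1 (hY h') h
  unfold cut
  rw [card_filter, card_filter, de_end s t S fun _ a b => if ¬(a ∈ sh Y ↔ b ∈ sh Y) then 1 else 0,
    sum_eq_zero (s := S) fun v hv => by simp [sh_mem, hS v hv], add_zero]
  refine sum_congr rfl fun e _ => ?_
  have a1 := hS (s e)
  have a2 := hS (t e)
  by_cases h1 : s e ∈ S <;> by_cases h2 : t e ∈ S <;> simp_all [sh_mem]

lemma de_cnt {Y : Finset V} (hY : Y ⊆ Sᶜ) :
    (univ.filter fun e => (ds s t S e ∈ sh Y ∧ dt s t S e ∉ sh Sᶜ) ∨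
      (dt s t S e ∈ sh Y ∧ ds s t S e ∉ sh Sᶜ)).card =
    (univ.filter fun e => (s e ∈ Y ∧ t e ∈ S) ∨ (t e ∈ Y ∧ s e ∈ S)).card := by
  have hS : ∀ v ∈ S, v ∉ Y := fun v h h' => mem_compl.1 (hY h') h
  rw [card_filter, card_filter, de_end s t S fun _ a b =>
    if (a ∈ sh Y ∧ b ∉ sh Sᶜ) ∨ (b ∈ sh Y ∧ a ∉ sh Sᶜ) then 1 else 0,
    sum_eq_zero (s := S) fun v hv => by simp [sh_mem, hS v hv], add_zero]
  refine sum_congr rfl fun e _ => ?_
  have a1 := hS (s e)
  have a2 := hS (t e)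
  by_cases h1 : s e ∈ S <;> by_cases h2 : t e ∈ S <;> simp_all [sh_mem]

lemma de_net {Y : Finset V} (hY : Y ⊆ Sᶜ) (f : E → ℤ) :
    ∑ e with dt s t S e ∈ sh Y ∧ ds s t S e ∉ sh Y, (dp s t S e).elim 0 f -
      ∑ e with ds s t S e ∈ sh Y ∧ dt s t S e ∉ sh Y, (dp s t S e).elim 0 f =
    ∑ e with t e ∈ Y ∧ s e ∉ Y, f e - ∑ e with s e ∈ Y ∧ t e ∉ Y, f e := by
  have hS : ∀ v ∈ S, v ∉ Y := fun v h h' => mem_compl.1 (hY h') h
  simp only [sum_filter]
  rw [← sum_sub_distrib, ← sum_sub_distrib, de_end s t S fun o a b =>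
    (if b ∈ sh Y ∧ a ∉ sh Y then o.elim 0 f else 0) - if a ∈ sh Y ∧ b ∉ sh Y then o.elim 0 f else 0,
    sum_eq_zero (s := S) fun v hv => by simp, add_zero]
  refine sum_congr rfl fun e _ => ?_
  have a1 := hS (s e)
  have a2 := hS (t e)
  by_cases h1 : s e ∈ S <;> by_cases h2 : t e ∈ S <;> simp_all [sh_mem]

lemma de_bd (z : DE s t S → ℝ) {v : V} (hv : v ∉ S) : bd (ds s t S) (dt s t S) z (v, false) =
    bd s t (fun e => if h : deP s t S (e, false) then z (.inl ⟨_, h⟩) else 0) v := by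
  unfold bd
  simp only [sum_filter]
  rw [← sum_sub_distrib, ← sum_sub_distrib, de_sum,
    sum_eq_zero (s := (univ : Finset {v // v ∈ S})) fun u _ => sum_eq_zero fun i _ => by
      have : u.1 ≠ v := fun h => hv (h ▸ u.2)
      simp [ds, dt, this], add_zero]
  refine sum_congr rfl fun e _ => ?_
  have a1 : s e ∈ S → s e ≠ v := fun h h' => hv (h' ▸ h)
  have a2 : t e ∈ S → t e ≠ v := fun h h' => hv (h' ▸ h)
  by_cases h1 : s e ∈ S <;> by_cases h2 : t e ∈ S <;> simp_all [deP, ds, dt]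

lemma de_lift {B : Finset V} (hS : ∀ v ∈ B, v ∉ S) (e : E) (h : deP s t S (e, false)) :
    (ds s t S (.inl ⟨_, h⟩) ∈ sh B ↔ s e ∈ B) ∧ (dt s t S (.inl ⟨_, h⟩) ∈ sh B ↔ t e ∈ B) := by
  have a1 : s e ∈ S → s e ∉ B := fun h h' => hS _ h' h
  have a2 : t e ∈ S → t e ∉ B := fun h h' => hS _ h' h
  constructor
  · by_cases h1 : s e ∈ S
    · simp [ds, h1, a1 h1, sh_mem]
    · simp [ds, h1, sh_mem]
  · by_cases h1 : t e ∈ S
    · simp [dt, h1, a2 h1, sh_mem]
    · simp [dt, h1, sh_mem]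

lemma de_other {B : Finset V} (hS : ∀ v ∈ B, v ∉ S) (x : DE s t S)
    (hx : ¬(ds s t S x ∈ sh B ↔ dt s t S x ∈ sh B)) :
    ∃ e, ¬(s e ∈ B ↔ t e ∈ B) ∧ dp s t S x = some e := by
  obtain ⟨⟨e, i⟩, h⟩ | ⟨u, i⟩ := x
  · cases i
    · rw [(de_lift s t S hS e h).1, (de_lift s t S hS e h).2] at hx
      exact ⟨e, hx, rfl⟩
    · obtain ⟨h1, h2⟩ := h.2 rfl
      simp [ds, dt, h1, h2, sh_mem] at hx
  · have : u.1 ∉ B := fun h => hS _ h u.2
    simp [ds, dt, sh_mem, this] at hx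

lemma de_split {Y Z : Finset V} (z1 : Z ⊆ Y)
    (hn : ¬∃ e, s e ∈ Y ∧ t e ∈ Y ∧ ¬(s e ∈ Z ↔ t e ∈ Z)) :
    cut s t Y = cut s t Z + cut s t (Y \ Z) := by
  unfold cut
  simp only [card_filter]
  rw [← sum_add_distrib]
  refine sum_congr rfl fun e _ => ?_
  have c1 := @z1 (s e)
  have c2 := @z1 (t e)
  have c3 : s e ∈ Y → t e ∈ Y → (s e ∈ Z ↔ t e ∈ Z) := fun h h' =>
    by_contra fun h'' => hn ⟨e, h, h', h''⟩
  clear hn z1
  simp only [mem_sdiff]
  by_cases d1 : s e ∈ Y <;> by_cases d2 : t e ∈ Y <;> by_cases d3 : s e ∈ Z <;>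
    by_cases d4 : t e ∈ Z <;> simp_all

end Dbl

theorem finalG (a p q N : ℕ) (hp : 0 < p) (hpq : 4 * a * q + p ≤ a * p) :
    ∀ (V E : Type) [Fintype V] [Fintype E] [DecidableEq V] (s t : E → V)
      (cyc con : Finset V → Prop) (S : Finset V),
    (∀ Y, cyc Y ↔ ∃ C : Finset E, C.Nonempty ∧ (∀ e ∈ C, s e ∈ Y ∧ t e ∈ Y) ∧
      ∀ v, Even ((C.filter fun e => s e = v).card + (C.filter fun e => t e = v).card)) →
    (∀ Y, con Y ↔ ∀ Z ⊆ Y, Z.Nonempty → Z ≠ Y →
      ∃ e, s e ∈ Y ∧ t e ∈ Y ∧ ¬(s e ∈ Z ↔ t e ∈ Z)) →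
    (∀ Y : Finset V, (univ.filter fun e => ¬(s e ∈ Y ↔ t e ∈ Y)).card ≠ 1) →
    (∀ v, v ∉ S →
      (univ.filter fun e => s e = v).card + (univ.filter fun e => t e = v).card = 3) →
    cyc Sᶜ →
    (∀ Y, cyc Y → Disjoint Y S → 2 ^ (2 ^ 75 * a ^ 5) * (N + 1) ≤ Y.card) →
    (∀ Y, con Y → Disjoint Y S → Y.card < 2 ^ (2 ^ 75 * a ^ 5) * (N + 1) →
      (univ.filter fun e => (s e ∈ Y ∧ t e ∈ S) ∨ (t e ∈ Y ∧ s e ∈ S)).card ≤ N) →
    ∃ B : Finset V, cyc B ∧ Disjoint B S ∧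
      (univ.filter fun e => ¬(s e ∈ B ↔ t e ∈ B)).card <
        2 ^ (2 ^ 75 * a ^ 5) * ((univ.filter fun e => ¬(s e ∈ S ↔ t e ∈ S)).card + 1) ∧
      ∀ f : E → ℤ,
      (∀ e, ¬(s e ∈ B ∧ t e ∈ B) → (q : ℤ) ≤ |f e| ∧ |f e| ≤ p - q) →
      (∀ v, v ∉ B → (p : ℤ) ∣
        ∑ e ∈ univ.filter (fun e => s e = v), f e - ∑ e ∈ univ.filter (fun e => t e = v), f e) →
      ∃ f' : E → ℤ, (∀ e, (q : ℤ) ≤ |f' e| ∧ |f' e| ≤ p - q) ∧
        (∀ e, ¬(s e ∈ B ∧ t e ∈ B) → (p : ℤ) ∣ f' e - f e) ∧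
        ∀ v, ∑ e ∈ univ.filter (fun e => s e = v), f' e =
          ∑ e ∈ univ.filter (fun e => t e = v), f' e := by
  obtain ⟨K, hgb, hM⟩ := finalM a p q N hp hpq
  generalize 2 ^ (2 ^ 75 * a ^ 5) = G at *
  generalize G * (N + 1) = g at *
  intro V E _ _ _ s t cyc con S hcyc hcon hbr hdeg hcS hg0 hloc
  have : DecidableEq E := Classical.decEq E
  have hac : ∀ Y ⊆ Sᶜ, Y.Nonempty → ¬cyc Y → Y.card + 2 ≤ cut s t Y := by
    intro Y hS hY hc
    have h1 := ld_degsum s t Y fun v hv => hdeg v (mem_compl.1 (hS hv))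
    have h2 : ¬Y.card ≤ (univ.filter fun e => s e ∈ Y ∧ t e ∈ Y).card :=
      fun h => hc ((hcyc Y).mpr (fin_forest s t Y hY h))
    omega
  have hfor : ∀ Y ⊆ Sᶜ, Y.Nonempty → Y.card ≤ K → Y.card + 2 ≤ cut s t Y := fun Y hY h1 h2 =>
    hac Y hY h1 fun h => by
      have := hg0 Y h (disjoint_compl_left.mono_left hY)
      omega
  obtain ⟨B', hB', b1, b2, b3, b4⟩ := hM (V × Bool) (DE s t S) (ds s t S) (dt s t S)
    (de_deg s t S hdeg) (de_br s t S hbr) (sh Sᶜ)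
    (fun Y hY h1 h2 => by
      obtain ⟨Y, y1, rfl⟩ := sh_sub hY
      rw [← card_pos] at h1
      rw [sh_card] at h1 h2 ⊢
      rw [de_cut s t S y1]
      exact hfor Y y1 (card_pos.1 h1) h2)
    (fun Y hY h1 h2 => by
      obtain ⟨Y, y1, rfl⟩ := sh_sub hY
      rw [sh_card] at h1 h2
      rw [de_cut s t S y1] at h2
      rw [de_cnt s t S y1]
      refine hloc Y ((hcon Y).2 fun Z z1 z2 z3 => ?_) (disjoint_compl_left.mono_left y1) (by omega)
      by_contra hn
      have b2 := de_split s t z1 hn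
      have b3 := card_sdiff_add_card_eq_card z1
      have b4 := hfor Z (z1.trans y1) z2 (by omega)
      have b5 := hfor (Y \ Z) (sdiff_subset.trans y1)
        (sdiff_nonempty.2 fun h => z3 (Subset.antisymm z1 h)) (by omega)
      omega)
    (by
      obtain ⟨C, c1, c2, c3⟩ := (hcyc _).1 hcS
      obtain ⟨Y, y1, y2, y3⟩ := ld_cyc s t Sᶜ (fun v hv => hdeg v (mem_compl.1 hv)) C c1 c2 c3
      exact ⟨sh Y, product_subset_product_left y1, by rw [← card_pos, sh_card, card_pos]; exact y2,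
        by rw [de_cut s t S y1, sh_card]; exact y3⟩)
  obtain ⟨B, hB, rfl⟩ := sh_sub hB'
  rw [← card_pos, sh_card, card_pos] at b1
  rw [de_cut s t S hB, sh_card] at b2
  rw [de_cut s t S hB, de_cut s t S subset_rfl, cut_compl] at b3
  have hS : ∀ v ∈ B, v ∉ S := fun v h => mem_compl.1 (hB h)
  refine ⟨B, by_contra fun hc => by have := hac B hB b1 hc; omega,
    disjoint_compl_left.mono_left hB, b3, fun f hf hfb => ?_⟩
  obtain ⟨ft, hft, hfd⟩ : ∃ ft : E → ℤ,
      (∀ e, ¬(s e ∈ B ∧ t e ∈ B) → (q : ℤ) ≤ ft e ∧ ft e ≤ p - q) ∧ ∀ e, (p : ℤ) ∣ ft e - f e := by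
    refine ⟨fun e => if 0 ≤ f e then f e else f e + p, fun e he => ?_, fun e => ?_⟩
    · have h1 := hf e he
      by_cases h2 : 0 ≤ f e
      · rw [abs_of_nonneg h2] at h1; simpa [h2] using h1
      · rw [abs_of_neg (not_le.mp h2)] at h1; simp only [h2, if_false]; omega
    · by_cases h2 : 0 ≤ f e <;> simp [h2]
  have hc : ∀ v, v ∉ B → ∃ c : ℤ, bd s t (fun e => ft e) v = p * c := by
    intro v hv
    have h1 : (p : ℤ) ∣ ∑ e with s e = v, ft e - ∑ e with t e = v, ft e := by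
      have h2 := (dvd_sub (dvd_sum fun e (_ : e ∈ univ.filter fun e => s e = v) => hfd e)
        (dvd_sum fun e (_ : e ∈ univ.filter fun e => t e = v) => hfd e)).add (hfb v hv)
      simp only [sum_sub_distrib] at h2
      rwa [show ∀ a b c d : ℤ, a - b - (c - d) + (b - d) = a - c from fun _ _ _ _ => by ring] at h2
    obtain ⟨c, h2⟩ := h1
    exact ⟨c, by simp only [bd]; exact_mod_cast h2⟩
  choose! c0 hc0 using hc
  have lift := de_lift s t S hS
  obtain ⟨z, z1, z2, z3⟩ := b4 (fun e => (dp s t S e).elim 0 ft)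
    (fun x hx => by
      obtain ⟨e, h1, h2⟩ := de_other s t S hS x hx
      simp only [h2]
      exact hft e fun h => h1 ⟨fun _ => h.2, fun _ => h.1⟩)
    (by
      rw [de_net s t S hB]
      have h1 := fin_sum_bd s t (fun e => (ft e : ℝ)) Bᶜ
      rw [sum_congr rfl fun v hv => hc0 v (mem_compl.mp hv), ← mul_sum] at h1
      simp only [mem_compl, not_not, and_comm (a := _ ∉ B)] at h1
      exact ⟨∑ v ∈ Bᶜ, c0 v, by exact_mod_cast h1.symm⟩)
  obtain ⟨y, hy⟩ : ∃ y : E → ℝ, ∀ e, y e =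
    if h : deP s t S (e, false) then z (.inl ⟨_, h⟩) else 0 := ⟨_, fun _ => rfl⟩
  have hP : ∀ e, s e ∈ B ∨ t e ∈ B → deP s t S (e, false) := fun e h =>
    ⟨h.imp (hS _) (hS _), by simp⟩
  have hc : ∀ v, ∃ c : ℤ,
      bd s t (fun e => if s e ∈ B ∧ t e ∈ B then y e else ft e) v = p * c := by
    intro v
    by_cases hv : v ∈ B
    · obtain ⟨c, hc⟩ := z3 (v, false) ((sh_mem B v).1.2 hv)
      rw [de_bd s t S z (hS v hv)] at hc
      refine ⟨c, Eq.trans ?_ hc⟩
      have key : ∀ e, s e ∈ B ∨ t e ∈ B → (if s e ∈ B ∧ t e ∈ B then y e else ft e) =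
          if h : deP s t S (e, false) then z (.inl ⟨_, h⟩) else 0 := fun e he => by
        split_ifs with h1 h2 h2
        · rw [hy, dif_pos h2]
        · exact absurd (hP e he) h2
        · exact (z2 _ (by 
            rw [(lift e h2).1, (lift e h2).2]
            exact fun h => h1 (he.elim (fun a => ⟨a, h.1 a⟩) fun a => ⟨h.2 a, a⟩))).symm
        · exact absurd (hP e he) h2
      unfold bd
      congr 1
      · exact sum_congr rfl fun e he => key e (Or.inl ((mem_filter.mp he).2 ▸ hv))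
      · exact sum_congr rfl fun e he => key e (Or.inr ((mem_filter.mp he).2 ▸ hv))
    · refine ⟨c0 v, Eq.trans ?_ (hc0 v hv)⟩
      unfold bd
      congr 1
      · exact sum_congr rfl fun e he => if_neg fun h1 => hv ((mem_filter.mp he).2 ▸ h1.1)
      · exact sum_congr rfl fun e he => if_neg fun h1 => hv ((mem_filter.mp he).2 ▸ h1.2)
  choose c hc using hc
  have hz : ∀ e, s e ∈ B ∧ t e ∈ B → (q : ℝ) ≤ y e ∧ y e ≤ p - q := fun e h => by
    rw [hy, dif_pos (hP e (Or.inl h.1))]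
    exact z1 _
  obtain ⟨f', h1, h2, h3⟩ := fx_round s t p q hp
    (fun e => if s e ∈ B ∧ t e ∈ B then q else ft e)
    (fun e => if s e ∈ B ∧ t e ∈ B then p - q else ft e) c _
    (fun e => by
      split_ifs with h1
      · exact_mod_cast (hz e h1).1
      · exact le_rfl)
    (fun e => by
      split_ifs with h1
      · exact_mod_cast (hz e h1).2
      · exact le_rfl)
    (fun e => by
      split_ifs with h1
      · exact ⟨le_rfl, le_rfl⟩
      · exact hft e h1) hc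
  refine ⟨f', h1, fun e he => ?_, h3⟩
  have h4 := (h2 e (by simp only [he, if_false])).add (hfd e)
  simpa only [he, if_false, sub_add_sub_cancel] using h4

end Pool.Agent.Lib.MP_c8786f_co.W5
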