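import Pool.Agent.Lib.MP_c8786f_co.Loc.E

/-!
Cubic graphs whose small connected subgraphs have few independent cycles have a reducible set.
-/

namespace Pool.Agent.Lib.MP_c8786f_co.W5

open Finset

set_option linter.unusedSectionVars false

section Sp

variable {V E : Type} [Fintype V] [DecidableEq V] [Fintype E] (s t : E → V)

/-- number of edges inside a set -/
def ins (Y : Finset V) : ℕ := (univ.filter fun e => s e ∈ Y ∧ t e ∈ Y).card

/-- connected vertex sets -/
def cn (Y : Finset V) : Prop :=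
  ∀ Z ⊆ Y, Z.Nonempty → Z ≠ Y → ∃ e, s e ∈ Y ∧ t e ∈ Y ∧ ¬(s e ∈ Z ↔ t e ∈ Z)

lemma sc_aux (A B : Finset V) (F : Finset E) (hF : ∀ e ∈ F, (s e ∈ A ∪ B ∧ t e ∈ A ∪ B) ∧
    ¬(s e ∈ A ∧ t e ∈ A) ∧ ¬(s e ∈ B ∧ t e ∈ B)) :
    ins s t A + ins s t B + F.card ≤ ins s t (A ∪ B) + ins s t (A ∩ B) := by
  classical
  unfold ins
  simp only [card_filter]
  have : F.card = ∑ e, if e ∈ F then 1 else 0 := by simp
  rw [this, ← sum_add_distrib, ← sum_add_distrib, ← sum_add_distrib]
  refine sum_le_sum fun e _ => ?_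
  have := hF e
  by_cases h0 : e ∈ F <;> by_cases h1 : s e ∈ A <;> by_cases h2 : s e ∈ B <;>
    by_cases h3 : t e ∈ A <;> by_cases h4 : t e ∈ B <;> simp [h0, h1, h2, h3, h4] at this ⊢

lemma sc_split {Y Z : Finset V}
    (hn : ¬∃ e, s e ∈ Y ∧ t e ∈ Y ∧ ¬(s e ∈ Z ↔ t e ∈ Z)) :
    ins s t Y ≤ ins s t Z + ins s t (Y \ Z) := by
  unfold ins
  simp only [card_filter]
  rw [← sum_add_distrib]
  refine sum_le_sum fun e _ => ?_
  have := not_exists.1 hn e
  by_cases h1 : s e ∈ Y <;> by_cases h2 : s e ∈ Z <;>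
    by_cases h3 : t e ∈ Y <;> by_cases h4 : t e ∈ Z <;> simp [h1, h2, h3, h4] at this ⊢

variable {s t}

lemma cn_union {A B : Finset V} (hA : cn s t A) (hB : cn s t B) {v : V} (h1 : v ∈ A)
    (h2 : v ∈ B) : cn s t (A ∪ B) := by
  intro Z z1 z2 z3
  have key : ∀ C ⊆ A ∪ B, cn s t C → (Z ∩ C).Nonempty → ¬C ⊆ Z →
      ∃ e, s e ∈ A ∪ B ∧ t e ∈ A ∪ B ∧ ¬(s e ∈ Z ↔ t e ∈ Z) := by
    intro C c0 c1 c2 c3
    obtain ⟨e, e1, e2, e3⟩ := c1 (Z ∩ C) inter_subset_right c2
      fun h => c3 (h ▸ inter_subset_left)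
    exact ⟨e, c0 e1, c0 e2, by simpa [e1, e2] using e3⟩
  by_cases hv : v ∈ Z
  · by_cases ha : A ⊆ Z
    · exact key B subset_union_right hB ⟨v, mem_inter.2 ⟨hv, h2⟩⟩
        fun hb => z3 (Subset.antisymm z1 (union_subset ha hb))
    · exact key A subset_union_left hA ⟨v, mem_inter.2 ⟨hv, h1⟩⟩ ha
  · obtain ⟨w, hw⟩ := z2
    rcases mem_union.1 (z1 hw) with h | h
    · exact key A subset_union_left hA ⟨w, mem_inter.2 ⟨hw, h⟩⟩ fun h => hv (h h1)
    · exact key B subset_union_right hB ⟨w, mem_inter.2 ⟨hw, h⟩⟩ fun h => hv (h h2)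

lemma cn_biUnion {ι : Type} [DecidableEq ι] {Y : Finset V} (hY : cn s t Y) (K : ι → Finset V)
    (T : Finset ι) (h : ∀ i ∈ T, cn s t (K i) ∧ ∃ v ∈ Y, v ∈ K i) :
    cn s t (Y ∪ T.biUnion K) := by
  induction T using Finset.induction_on with
  | empty => simpa using hY
  | insert i T _ ih =>
    obtain ⟨h1, v, h2, h3⟩ := h i (mem_insert_self _ _)
    rw [biUnion_insert, union_left_comm]
    exact cn_union h1 (ih fun j hj => h j (mem_insert_of_mem hj)) h3 (mem_union_left _ h2)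

lemma cn_edge (e : E) : cn s t {s e, t e} := by
  intro Z z1 z2 z3
  refine ⟨e, by simp, by simp, fun h => ?_⟩
  obtain ⟨w, hw⟩ := z2
  have : s e ∈ Z ∧ t e ∈ Z := by
    rcases mem_insert.1 (z1 hw) with rfl | h'
    · exact ⟨hw, h.1 hw⟩
    · rw [mem_singleton.1 h'] at hw; exact ⟨h.2 hw, hw⟩
  exact z3 (Subset.antisymm z1 (insert_subset this.1 (singleton_subset_iff.2 this.2)))

lemma cn_single (v : V) : cn s t {v} := fun _ z1 z2 z3 =>
  absurd (z2.subset_singleton_iff.1 z1) z3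

lemma cn_grow (h : cn s t univ) (v : V) (m : ℕ) (hm : m < Fintype.card V) :
    ∃ W, v ∈ W ∧ cn s t W ∧ W.card = m + 1 := by
  induction m with
  | zero => exact ⟨{v}, mem_singleton_self v, cn_single v, by simp⟩
  | succ m ih =>
    obtain ⟨W, w1, w2, w3⟩ := ih (by omega)
    obtain ⟨e, -, -, he⟩ := h W (subset_univ _) ⟨v, w1⟩ (by
      rintro rfl
      rw [card_univ] at w3
      omega)
    refine ⟨W ∪ {s e, t e}, mem_union_left _ w1, ?_⟩
    by_cases h1 : s e ∈ W
    · have h2 : t e ∉ W := fun h2 => he ⟨fun _ => h2, fun _ => h1⟩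
      refine ⟨cn_union w2 (cn_edge e) h1 (by simp), ?_⟩
      rw [union_insert, union_singleton, insert_eq_of_mem (mem_insert_of_mem h1),
        card_insert_of_notMem h2, w3]
    · have h2 : t e ∈ W := by_contra fun h2 => he ⟨fun h => absurd h h1, fun h => absurd h h2⟩
      refine ⟨cn_union w2 (cn_edge e) h2 (by simp), ?_⟩
      rw [union_insert, union_singleton, insert_eq_of_mem h2, card_insert_of_notMem h1, w3]

lemma sc_exc {W T : Finset V} (hW : cn s t W) (hne : W.Nonempty) (K : V → Finset V)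
    (h1 : ∀ v ∈ W, v ∈ K v) (h2 : ∀ v ∈ W, K v ⊆ W)
    (h3 : ∀ v ∈ W, (K v).card + (T ∩ K v).card ≤ ins s t (K v) + 1)
    (h4 : ∀ v ∈ W, ∀ Z ⊆ K v, v ∉ Z → Z.Nonempty → ins s t Z < Z.card) :
    W.card + (T ∩ W).card ≤ ins s t W + 1 := by
  classical
  obtain ⟨v0, hv0⟩ := hne
  obtain ⟨Z, hZ, hmax⟩ := exists_max_image (W.powerset.filter fun Z : Finset V => Z.Nonempty ∧
    Z.card + (T ∩ Z).card ≤ ins s t Z + 1) card
    ⟨K v0, mem_filter.2 ⟨mem_powerset.2 (h2 v0 hv0), ⟨v0, h1 v0 hv0⟩, h3 v0 hv0⟩⟩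
  obtain ⟨z1, z2, z3⟩ := mem_filter.1 hZ
  rw [mem_powerset] at z1
  by_cases hzw : Z = W
  · exact hzw ▸ z3
  exfalso
  obtain ⟨e, e1, e2, e3⟩ := hW Z z1 z2 hzw
  obtain ⟨v, v1, v2, v3⟩ : ∃ v ∈ W, v ∉ Z ∧ ((s e = v ∧ t e ∈ Z) ∨ (t e = v ∧ s e ∈ Z)) := by
    by_cases h : s e ∈ Z
    · exact ⟨t e, e2, fun h' => e3 ⟨fun _ => h', fun _ => h⟩, Or.inr ⟨rfl, h⟩⟩
    · exact ⟨s e, e1, h, Or.inl ⟨rfl, by_contra fun h' =>
        e3 ⟨fun a => absurd a h, fun a => absurd a h'⟩⟩⟩
  have a1 := card_union_add_card_inter Z (K v)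
  have a2 : (T ∩ (Z ∪ K v)).card ≤ (T ∩ Z).card + (T ∩ K v).card := by
    rw [inter_union_distrib_left]; exact card_union_le _ _
  have a3 := h3 v v1
  have a4 : ins s t Z + ins s t (K v) + 1 ≤ ins s t (Z ∪ K v) + (Z ∩ K v).card := by
    rcases (Z ∩ K v).eq_empty_or_nonempty with h | h
    · have hd : ∀ w ∈ Z, w ∉ K v := fun w a b => by
        have : w ∈ Z ∩ K v := mem_inter.2 ⟨a, b⟩
        rw [h] at this
        exact notMem_empty _ this
      have := sc_aux s t Z (K v) {e} (by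
        intro e' he'
        rw [mem_singleton.1 he']
        have k := h1 v v1
        rcases v3 with ⟨b1, b2⟩ | ⟨b1, b2⟩
        · exact ⟨⟨mem_union_right _ (b1 ▸ k), mem_union_left _ b2⟩, fun c => v2 (b1 ▸ c.1),
            fun c => hd _ b2 c.2⟩
        · exact ⟨⟨mem_union_left _ b2, mem_union_right _ (b1 ▸ k)⟩, fun c => v2 (b1 ▸ c.2),
            fun c => hd _ b2 c.1⟩)
      rw [h] at this ⊢
      simpa [ins] using this
    · have b1 := h4 v v1 _ inter_subset_right (fun c => v2 (mem_inter.1 c).1) h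
      have b2 := sc_aux s t Z (K v) ∅ (by simp)
      omega
  have a5 := hmax (Z ∪ K v) (mem_filter.2 ⟨mem_powerset.2 (union_subset z1 (h2 v v1)),
    z2.mono subset_union_left, by omega⟩)
  have a6 : Z.card < (Z ∪ K v).card := card_lt_card ⟨subset_union_left, fun h =>
    v2 (h (mem_union_right _ (h1 v v1)))⟩
  omega

/-- a minimal set meeting all short cycles is sparse -/
lemma sc_hit (N G g : ℕ)
    (hsp : ∀ Y : Finset V, Y.Nonempty → Y.card < g → cn s t Y → ins s t Y < Y.card + N) :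
    ∃ S : Finset V, (∀ Y, Y.Nonempty → Y.card ≤ ins s t Y → Disjoint Y S → G ≤ Y.card) ∧
      ∀ W, cn s t W → W.card + (N + 1) * G < g → (W ∩ S).card ≤ N := by
  classical
  obtain ⟨S, hS, hmin⟩ := exists_min_image (univ.filter fun S : Finset V =>
    ∀ Y, Y.Nonempty → Y.card ≤ ins s t Y → Disjoint Y S → G ≤ Y.card) card
    ⟨univ, mem_filter.2 ⟨mem_univ _, fun Y ⟨v, hv⟩ _ h =>
      absurd (mem_univ v) (disjoint_left.1 h hv)⟩⟩
  replace hS := (mem_filter.1 hS).2
  refine ⟨S, hS, fun W w1 w2 => ?_⟩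
  have hK : ∀ x ∈ S, ∃ K : Finset V, x ∈ K ∧ cn s t K ∧ K.card ≤ G ∧ K.card ≤ ins s t K ∧
      (∀ y ∈ K, y ∈ S → y = x) ∧ ∀ Z ⊆ K, x ∉ Z → Z.Nonempty → ins s t Z < Z.card := by
    intro x hx
    have hne : (univ.filter fun Y : Finset V => Y.Nonempty ∧ Y.card ≤ ins s t Y ∧
        Disjoint Y (S.erase x) ∧ Y.card < G).Nonempty := by
      by_contra hc
      have := hmin (S.erase x) (mem_filter.2 ⟨mem_univ _, fun Y a b c => by_contra fun d =>
        hc ⟨Y, mem_filter.2 ⟨mem_univ _, a, b, c, not_le.1 d⟩⟩⟩)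
      have := card_erase_lt_of_mem hx
      omega
    obtain ⟨K, hK, hm⟩ := exists_min_image _ card hne
    obtain ⟨-, k1, k2, k3, k4⟩ := mem_filter.1 hK
    have k5 : ∀ y ∈ K, y ∈ S → y = x := fun y a b => by_contra fun c =>
      disjoint_left.1 k3 a (mem_erase.2 ⟨c, b⟩)
    have k6 : ∀ Z ⊆ K, x ∉ Z → Z.Nonempty → ins s t Z < Z.card := fun Z a b c => by
      by_contra d
      have := hS Z c (not_lt.1 d) (disjoint_left.2 fun y e f => b (k5 y (a e) f ▸ e))
      have := card_le_card a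
      omega
    refine ⟨K, by_contra fun h => by have := k6 K subset_rfl h k1; omega, fun Z z1 z2 z3 => ?_,
      k4.le, k2, k5, k6⟩
    by_contra hn
    have b1 := sc_split s t hn
    have b2 := card_sdiff_add_card_eq_card z1
    have b3 : (K \ Z).Nonempty := sdiff_nonempty.2 fun h => z3 (Subset.antisymm z1 h)
    have b4 := card_pos.2 b3
    have b5 := card_pos.2 z2
    have b6 : ∀ Y ⊆ K, Y.Nonempty → Y.card < K.card → ins s t Y < Y.card := fun Y a b c => by
      by_contra d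
      have := hm Y (mem_filter.2 ⟨mem_univ _, b, not_lt.1 d, k3.mono_left a, by omega⟩)
      omega
    have := b6 Z z1 z2 (by omega)
    have := b6 (K \ Z) sdiff_subset b3 (by omega)
    omega
  choose! K k1 k2 k3 k4 k5 k6 using hK
  by_contra hc
  obtain ⟨T, t1, t2⟩ := exists_subset_card_eq (show N + 1 ≤ (W ∩ S).card by omega)
  have tW : T ⊆ W := t1.trans inter_subset_left
  have tS : T ⊆ S := t1.trans inter_subset_right
  have u1 := cn_biUnion w1 K T fun x hx => ⟨k2 x (tS hx), x, tW hx, k1 x (tS hx)⟩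
  have u2 := card_union_le W (T.biUnion K)
  have u3 := card_biUnion_le_card_mul T K G fun x hx => k3 x (tS hx)
  have u4 : (W ∪ T.biUnion K).Nonempty :=
    (card_pos.1 (show 0 < T.card by omega)).mono (tW.trans subset_union_left)
  rw [t2] at u3
  have u5 := hsp _ u4 (by omega) u1
  have u6 := sc_exc (T := T) u1 u4 (fun v => if v ∈ T then K v else {v})
    (fun v _ => by
      by_cases h : v ∈ T
      · rw [if_pos h]; exact k1 v (tS h)
      · rw [if_neg h]; exact mem_singleton_self v)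
    (fun v hv => by
      by_cases h : v ∈ T
      · rw [if_pos h]; exact (subset_biUnion_of_mem K h).trans subset_union_right
      · rw [if_neg h]; exact singleton_subset_iff.2 hv)
    (fun v _ => by
      by_cases h : v ∈ T
      · rw [if_pos h]
        have : (T ∩ K v).card ≤ 1 := card_le_one.2 fun a ha b hb => by
          rw [k5 v (tS h) a (mem_inter.1 ha).2 (tS (mem_inter.1 ha).1),
            k5 v (tS h) b (mem_inter.1 hb).2 (tS (mem_inter.1 hb).1)]
        have := k4 v (tS h)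
        omega
      · rw [if_neg h, inter_singleton_of_notMem h]; simp)
    (fun v _ Z => by
      by_cases h : v ∈ T
      · rw [if_pos h]; exact k6 v (tS h) Z
      · rw [if_neg h]
        exact fun a b c => absurd (c.subset_singleton_iff.1 a ▸ mem_singleton_self v) b)
  rw [inter_eq_left.2 (tW.trans subset_union_left), t2] at u6
  omega

end Sp

theorem finalS (a p q N : ℕ) (hp : 0 < p) (hpq : 4 * a * q + p ≤ a * p) :
    ∀ (V E : Type) [Fintype V] [Fintype E] [DecidableEq V] (s t : E → V),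
    (∀ v, (univ.filter fun e => s e = v).card + (univ.filter fun e => t e = v).card = 3) →
    (∀ Y : Finset V, Y.Nonempty → Y ≠ univ →
      2 ≤ (univ.filter fun e => ¬(s e ∈ Y ↔ t e ∈ Y)).card) →
    2 * N < Fintype.card V →
    (∀ Y : Finset V, Y.Nonempty → Y.card < 2 ^ (2 ^ 76 * a ^ 5) * (N + 1) ^ 2 →
      (∀ Z ⊆ Y, Z.Nonempty → Z ≠ Y → ∃ e, s e ∈ Y ∧ t e ∈ Y ∧ ¬(s e ∈ Z ↔ t e ∈ Z)) →
      (univ.filter fun e => s e ∈ Y ∧ t e ∈ Y).card < Y.card + N) →
    ∃ B : Finset V, (∃ C : Finset E, C.Nonempty ∧ (∀ e ∈ C, s e ∈ B ∧ t e ∈ B) ∧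
        ∀ v, Even ((C.filter fun e => s e = v).card + (C.filter fun e => t e = v).card)) ∧
      ∀ f : E → ℤ,
      (∀ e, ¬(s e ∈ B ∧ t e ∈ B) → (q : ℤ) ≤ |f e| ∧ |f e| ≤ p - q) →
      (∀ v, v ∉ B → (p : ℤ) ∣
        ∑ e ∈ univ.filter (fun e => s e = v), f e - ∑ e ∈ univ.filter (fun e => t e = v), f e) →
      ∃ f' : E → ℤ, (∀ e, (q : ℤ) ≤ |f' e| ∧ |f' e| ≤ p - q) ∧
        (∀ e, ¬(s e ∈ B ∧ t e ∈ B) → (p : ℤ) ∣ f' e - f e) ∧
        ∀ v, ∑ e ∈ univ.filter (fun e => s e = v), f' e =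
          ∑ e ∈ univ.filter (fun e => t e = v), f' e := by
  have hG := finalG a p q (3 * N) hp hpq
  have ha : 1 ≤ a := by
    rcases Nat.eq_zero_or_pos a with rfl | h
    · omega
    · exact h
  have hC : 2 ^ 5 ≤ 2 ^ (2 ^ 75 * a ^ 5) := Nat.pow_le_pow_right two_pos (by
    have := Nat.one_le_pow 5 a ha
    omega)
  have hsq : 2 ^ (2 ^ 76 * a ^ 5) = 2 ^ (2 ^ 75 * a ^ 5) * 2 ^ (2 ^ 75 * a ^ 5) := by
    rw [← pow_add]; congr 1; omega
  rw [hsq]
  generalize 2 ^ (2 ^ 75 * a ^ 5) = C at *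
  have g0 : 32 * C * (N + 1) ^ 2 ≤ C * C * (N + 1) ^ 2 := by gcongr; omega
  have g1 : C * (3 * N + 1) + (3 * N + 1) * 2 + (N + 1) * (C * (3 * N + 1)) <
      C * C * (N + 1) ^ 2 := by nlinarith [Nat.zero_le (C * N), Nat.zero_le (C * N * N)]
  have g2 : 1 + (N + 1) * (4 * N + 1) + (N + 1) * (C * (3 * N + 1)) < C * C * (N + 1) ^ 2 := by
    have : 32 * (N * N) ≤ C * (N * N) := by gcongr; omega
    have : 32 * N ≤ C * N := by gcongr; omega
    nlinarith [Nat.zero_le (C * N), Nat.zero_le (C * N * N)]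
  generalize C * C * (N + 1) ^ 2 = g at *
  generalize C * (3 * N + 1) = G at *
  intro V E _ _ _ s t hdeg hbr hV hsp
  classical
  have hcn : cn s t univ := fun Z _ z2 z3 => by
    obtain ⟨e, he⟩ := card_pos.1 (lt_of_lt_of_le two_pos (hbr Z z2 z3))
    exact ⟨e, mem_univ _, mem_univ _, (mem_filter.1 he).2⟩
  have hbig : g ≤ Fintype.card V := by
    by_contra h
    have h1 := hsp univ (card_pos.1 (by rw [card_univ]; omega)) (by rw [card_univ]; omega) hcn
    have h2 := fin_degsum s t hdeg univ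
    have h3 : cut s t univ = 0 := by simp [cut]
    rw [card_univ] at h1 h2
    omega
  obtain ⟨S, s1, s2⟩ := sc_hit (s := s) (t := t) N G g hsp
  obtain ⟨B, b1, -, -, b2⟩ := hG V E s t _ (cn s t) S (fun _ => Iff.rfl) (fun _ => Iff.rfl)
    (fun Y => by
      rcases Y.eq_empty_or_nonempty with rfl | h
      · simp
      by_cases h' : Y = univ
      · simp [h']
      · have := hbr Y h h'; omega)
    (fun v _ => hdeg v)
    (by
      by_contra hc
      have c1 : Sᶜ.card ≤ 3 * S.card := by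
        rcases Sᶜ.eq_empty_or_nonempty with h | h
        · simp [h]
        have h1 := fin_degsum s t hdeg S
        have h2 := fin_degsum s t hdeg Sᶜ
        have h3 : cut s t Sᶜ = cut s t S := by simp [cut, not_iff_not]
        have h4 := mt (fin_forest s t Sᶜ h) hc
        omega
      have c2 := card_add_card_compl S
      have c3 : 4 * N + 1 ≤ (N + 1) * (4 * N + 1) := Nat.le_mul_of_pos_left _ (by omega)
      choose W w1 w2 w3 using fun v => cn_grow hcn v (4 * N) (by omega)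
      have c4 := card_mul_le_card_mul (s := S) (t := (univ : Finset V)) (m := 4 * N + 1) (n := N)
        (fun x v => v ∈ W x) (fun x _ => by simp [bipartiteAbove, w3]) (fun v _ => by
          by_contra hc
          obtain ⟨T, t1, t2⟩ := exists_subset_card_eq (not_le.1 hc)
          have u1 := cn_biUnion (cn_single v) W T fun x hx =>
            ⟨w2 x, v, mem_singleton_self v, (mem_filter.1 (t1 hx)).2⟩
          have u2 := card_union_le {v} (T.biUnion W)
          have u3 := card_biUnion_le_card_mul T W (4 * N + 1) fun x _ => (w3 x).le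
          rw [t2] at u3
          rw [card_singleton] at u2
          have u4 := s2 _ u1 (by simp only [Nat.succ_eq_add_one] at u3; omega)
          have u5 : T ⊆ ({v} ∪ T.biUnion W) ∩ S := fun x hx => mem_inter.2
            ⟨mem_union_right _ (mem_biUnion.2 ⟨x, hx, w1 x⟩), (mem_filter.1 (t1 hx)).1⟩
          have := card_le_card u5
          omega)
      rw [card_univ] at c4
      have c5 : Fintype.card V * N ≤ 4 * S.card * N := Nat.mul_le_mul_right _ (by omega)
      have c6 : S.card = 0 := by nlinarith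
      omega)
    (fun Y ⟨C, c1, c2, c3⟩ hd => by
      obtain ⟨Y', y1, y2, y3⟩ := ld_cyc s t Y (fun v _ => hdeg v) C c1 c2 c3
      have h1 := fin_degsum s t hdeg Y'
      exact (s1 Y' y2 (by unfold ins; omega) (hd.mono_left y1)).trans (card_le_card y1))
    (fun Y y1 y2 y3 => by
      by_contra hc
      obtain ⟨F, f1, f2⟩ := exists_subset_card_eq (not_le.1 hc)
      have f3 : ∀ e ∈ F, (s e ∈ Y ∧ t e ∈ S) ∨ (t e ∈ Y ∧ s e ∈ S) :=
        fun e he => (mem_filter.1 (f1 he)).2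
      have u1 := cn_biUnion y1 (fun e => {s e, t e}) F fun e he => ⟨cn_edge e, by
        rcases f3 e he with h | h
        · exact ⟨_, h.1, by simp⟩
        · exact ⟨_, h.1, by simp⟩⟩
      have u2 := card_union_le Y (F.biUnion fun e => {s e, t e})
      have u3 := card_biUnion_le_card_mul F (fun e => ({s e, t e} : Finset V)) 2
        fun e _ => card_le_two
      rw [f2] at u3
      have u4 := s2 _ u1 (by simp only [Nat.succ_eq_add_one] at u3; omega)
      have u5 := fin_degsum s t hdeg ((Y ∪ F.biUnion fun e => {s e, t e}) ∩ S)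
      have u6 : F.card ≤ cut s t ((Y ∪ F.biUnion fun e => {s e, t e}) ∩ S) :=
        card_le_card fun e he => mem_filter.2 ⟨mem_univ _, fun h => by
          have m1 : s e ∈ Y ∪ F.biUnion fun e => {s e, t e} :=
            mem_union_right _ (mem_biUnion.2 ⟨e, he, by simp⟩)
          have m2 : t e ∈ Y ∪ F.biUnion fun e => {s e, t e} :=
            mem_union_right _ (mem_biUnion.2 ⟨e, he, by simp⟩)
          rcases f3 e he with k | k
          · exact disjoint_left.1 y2 k.1 (mem_inter.1 (h.2 (mem_inter.2 ⟨m2, k.2⟩))).2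
          · exact disjoint_left.1 y2 k.1 (mem_inter.1 (h.1 (mem_inter.2 ⟨m1, k.2⟩))).2⟩
      omega)
  exact ⟨B, b1, b2⟩

end Pool.Agent.Lib.MP_c8786f_co.W5
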